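import Pool.Agent.ES9.Body

/-!
# Seven pairwise tangent homothets of a strictly convex centrally symmetric body
-/

set_option autoImplicit false

namespace Pool.Agent.ES9

open C1S

/-- the ratios -/
def cI : Fin 7 → ℤ := ![178, 210, 4, 174, 178, 9, 10]

/-- the centres -/
def xI : Fin 7 → Fin 3 → ℤ :=
  ![![-75, 51, 104], ![-117, -158, -119], ![3, 4, 2], ![115, 39, -1], ![-21, 120, -22],
    ![2, 1, -8], ![8, 2, 8]]

/-- the numerators of the normals -/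
def pI : Fin 7 → Fin 7 → Fin 3 → ℤ :=
  ![![![0, 0, 0], ![-47, 99, 57], ![-10, 4, 3], ![-17, 1, 6], ![-124, -176, 198], ![-6, 2, 5],
      ![-10, 6, 2]],
    ![![0, 0, 0], ![0, 0, 0], ![-3, -8, -4], ![-44, -14, 9], ![1, -15, 2], ![-27, -40, 31],
      ![-9, 0, -5]],
    ![![0, 0, 0], ![0, 0, 0], ![0, 0, 0], ![-21, 11, -3], ![0, -9, 2], ![-1, 1, 5],
      ![-12, 7, -4]],
    ![![0, 0, 0], ![0, 0, 0], ![0, 0, 0], ![0, 0, 0], ![363, -195, 65], ![30, -9, 9],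
      ![38, 52, -50]],
    ![![0, 0, 0], ![0, 0, 0], ![0, 0, 0], ![0, 0, 0], ![0, 0, 0], ![-15, 29, 4], ![-6, 10, -5]],
    ![![0, 0, 0], ![0, 0, 0], ![0, 0, 0], ![0, 0, 0], ![0, 0, 0], ![0, 0, 0], ![-1, 0, -2]],
    ![![0, 0, 0], ![0, 0, 0], ![0, 0, 0], ![0, 0, 0], ![0, 0, 0], ![0, 0, 0], ![0, 0, 0]]]

/-- the denominators of the normals -/
def dI : Fin 7 → Fin 7 → ℤ :=
  ![![1, 81, 7, 11, 123, 6, 7],
    ![1, 1, 10, 31, 10, 28, 8],
    ![1, 1, 1, 11, 6, 4, 7],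
    ![1, 1, 1, 1, 189, 17, 35],
    ![1, 1, 1, 1, 1, 20, 8],
    ![1, 1, 1, 1, 1, 1, 2],
    ![1, 1, 1, 1, 1, 1, 1]]

/-- the value of the normal `i j` on the difference of the centres `k l`, times its denominator -/
def tI (i j k l : Fin 7) : ℤ :=
  pI i j 0 * (xI k 0 - xI l 0) + pI i j 1 * (xI k 1 - xI l 1) + pI i j 2 * (xI k 2 - xI l 2)

theorem cI_pos : ∀ i, 0 < cI i := by decide +kernel

theorem dI_pos : ∀ i j, 0 < dI i j := by decide +kernel

theorem tI_eq : ∀ i j, i < j → tI i j i j = dI i j * (cI i + cI j) := by decide +kernel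

theorem tI_lt : ∀ i j k l, i < j → k < l → (i ≠ k ∨ j ≠ l) →
    tI i j k l < dI i j * (cI k + cI l) ∧ -(dI i j * (cI k + cI l)) < tI i j k l := by
  decide +kernel

/-- the centres in `ℝ³` -/
noncomputable def xR (i : Fin 7) : EuclideanSpace ℝ (Fin 3) := WithLp.toLp 2 fun a => (xI i a : ℝ)

/-- the normals in `ℝ³` -/
noncomputable def uR (i j : Fin 7) : EuclideanSpace ℝ (Fin 3) :=
  WithLp.toLp 2 fun a => (pI i j a : ℝ) / (dI i j : ℝ)

theorem inner_uR (i j k l : Fin 7) :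
    inner ℝ (uR i j) (xR k - xR l) = (tI i j k l : ℝ) / (dI i j : ℝ) := by
  rw [PiLp.inner_apply]
  simp only [RCLike.inner_apply, conj_trivial, uR, xR, PiLp.sub_apply, Fin.sum_univ_three]
  unfold tI
  push_cast
  ring

theorem seven_example : ∃ (K : Set (EuclideanSpace ℝ (Fin 3))) (c : Fin 7 → ℝ)
    (x : Fin 7 → EuclideanSpace ℝ (Fin 3)), StrictConvex ℝ K ∧ IsCompact K ∧
      (interior K).Nonempty ∧ (∀ y ∈ K, -y ∈ K) ∧ (∀ i, 0 < c i) ∧
      ∀ i j, i ≠ j → (hom K (c i) (x i) ∩ hom K (c j) (x j)).Nonempty ∧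
        interior (hom K (c i) (x i)) ∩ interior (hom K (c j) (x j)) = ∅ := by
  have hd : ∀ i j, (0 : ℝ) < dI i j := fun i j => by exact_mod_cast dI_pos i j
  have hc : ∀ i, (0 : ℝ) < cI i := fun i => by exact_mod_cast cI_pos i
  obtain ⟨K, h1, h2, h3, h4, h5⟩ := exists_body (by norm_num) (fun i => (cI i : ℝ)) xR uR hc
    (fun i j hij => by
      rw [inner_uR, div_eq_iff (hd i j).ne', tI_eq i j hij]
      push_cast
      ring)
    (fun i j k l hij hkl hne => by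
      obtain ⟨h6, h7⟩ := tI_lt i j k l hij hkl hne
      have h6' : (tI i j k l : ℝ) < (dI i j : ℝ) * ((cI k : ℝ) + cI l) := by exact_mod_cast h6
      have h7' : -((dI i j : ℝ) * ((cI k : ℝ) + cI l)) < (tI i j k l : ℝ) := by exact_mod_cast h7
      rw [inner_uR, abs_div, abs_of_pos (hd i j), div_lt_iff₀ (hd i j), abs_lt]
      constructor <;> linarith)
  exact ⟨K, _, xR, h1, h2, h3, h4, hc, h5⟩

end Pool.Agent.ES9
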