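import Pool.Agent.ES9.Defs

set_option autoImplicit false

namespace Pool.Agent.ES9

open Finset

-- BEGIN minors
/-- nonzero minors give general position (a set of at most four indices lies in the image of an
injective `s : Fin 4 → Fin 9`; a relation supported there is a vanishing combination of the rows) -/
theorem gp_of_minors (w : Fin 9 → V)
    (h : ∀ s : Fin 4 → Fin 9, Function.Injective s → (Matrix.of fun r => w (s r)).det ≠ 0) :
    GP w := by
  intro c hc hA
  obtain ⟨A, hA4, hA0⟩ := hA
  obtain ⟨B, hAB, hB⟩ : ∃ B : Finset (Fin 9), A ⊆ B ∧ B.card = 4 := by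
    obtain ⟨B, h1, -, h2⟩ := Finset.exists_subsuperset_card_eq (Finset.subset_univ A) hA4
      (by simp : 4 ≤ (Finset.univ : Finset (Fin 9)).card)
    exact ⟨B, h1, h2⟩
  let s : Fin 4 → Fin 9 := fun r => B.orderEmbOfFin hB r
  have hsi : Function.Injective s := (B.orderEmbOfFin hB).injective
  have hd := h s hsi
  have him : (Finset.univ : Finset (Fin 4)).image s = B := by
    apply Finset.eq_of_subset_of_card_le
    · intro x hx
      obtain ⟨r, -, rfl⟩ := Finset.mem_image.1 hx
      exact Finset.orderEmbOfFin_mem B hB r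
    · rw [Finset.card_image_of_injective _ hsi, hB]; simp
  have hsum : ∑ r : Fin 4, c (s r) • w (s r) = 0 := by
    rw [← hc]
    have h1 : ∑ j ∈ B, c j • w j = ∑ j, c j • w j := by
      apply Finset.sum_subset (Finset.subset_univ B)
      intro j _ hj
      rw [hA0 j (fun hh => hj (hAB hh)), zero_smul]
    rw [← h1, ← him, Finset.sum_image (fun a _ b _ hab => hsi hab)]
  have hv : Matrix.vecMul (fun r => c (s r)) (Matrix.of fun r => w (s r)) = 0 := by
    ext k
    have := congrFun hsum k
    simpa [Matrix.vecMul, dotProduct, Finset.sum_apply] using this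
  have hz : (fun r => c (s r)) = 0 := Matrix.eq_zero_of_vecMul_eq_zero hd hv
  funext j
  by_cases hj : j ∈ B
  · rw [← him] at hj
    obtain ⟨r, -, rfl⟩ := Finset.mem_image.1 hj
    exact congrFun hz r
  · exact hA0 j (fun hh => hj (hAB hh))
-- END minors

-- BEGIN easy
theorem InCone.mono {ι : Type} [Fintype ι] {w : ι → V} {A B : Finset ι} {v : V}
    (h : InCone w A v) (hAB : A ⊆ B) : InCone w B v := by
  obtain ⟨c, h1, h2, h3⟩ := h
  exact ⟨c, h1, fun j hj => h2 j (fun hA => hj (hAB hA)), h3⟩

/-- separation by a functional negative at `v` -/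
theorem not_inCone_of_neg {ι : Type} [Fintype ι] {w : ι → V} {A : Finset ι} {v : V}
    (φ : V →ₗ[ℝ] ℝ) (hv : φ v < 0) (hp : ∀ j ∈ A, 0 ≤ φ (w j)) : ¬ InCone w A v := by
  rintro ⟨c, h1, h2, h3⟩
  rw [h3, map_sum] at hv
  refine absurd hv (not_lt.mpr (Finset.sum_nonneg fun j _ => ?_))
  rw [map_smul, smul_eq_mul]
  by_cases hj : j ∈ A
  · exact mul_nonneg (h1 j) (hp j hj)
  · rw [h2 j hj]; simp
-- END easy

-- BEGIN face
/-- FACE LEMMA: a functional vanishing at `w i`, nonnegative on the members of `A`, with at most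
three zeros among them: `w i` is not in the cone of `A`. -/
theorem face {ι : Type} [Fintype ι] [DecidableEq ι] {w : ι → V} (hg : GP w) {i : ι}
    {A : Finset ι} (hi : i ∉ A) (φ : V →ₗ[ℝ] ℝ) (h0 : φ (w i) = 0) (hp : ∀ j ∈ A, 0 ≤ φ (w j))
    (Z : Finset ι) (hZ : Z.card ≤ 3) (hz : ∀ j ∈ A, j ∉ Z → φ (w j) ≠ 0) :
    ¬ InCone w A (w i) := by
  rintro ⟨c, h1, h2, h3⟩
  have e1 : ∑ j, c j * φ (w j) = 0 := by
    have h4 := congrArg φ h3
    rw [map_sum, h0] at h4
    rw [h4]
    refine Finset.sum_congr rfl fun j _ => ?_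
    rw [map_smul, smul_eq_mul]
  have hnn : ∀ j ∈ (univ : Finset ι), 0 ≤ c j * φ (w j) := by
    intro j _
    by_cases hj : j ∈ A
    · exact mul_nonneg (h1 j) (hp j hj)
    · rw [h2 j hj]; simp
  have e2 := (Finset.sum_eq_zero_iff_of_nonneg hnn).1 e1
  have e3 : ∀ j, j ∉ Z → c j = 0 := by
    intro j hj
    by_cases hA : j ∈ A
    · rcases mul_eq_zero.1 (e2 j (mem_univ j)) with h | h
      · exact h
      · exact absurd h (hz j hA hj)
    · exact h2 j hA
  have e4 : (fun j => c j - if j = i then 1 else 0) = 0 := by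
    apply hg
    · have e5 : ∑ j, (c j - if j = i then (1 : ℝ) else 0) • w j =
          ∑ j, c j • w j - ∑ j, (if j = i then (1 : ℝ) else 0) • w j := by
        rw [← Finset.sum_sub_distrib]
        exact Finset.sum_congr rfl fun j _ => sub_smul _ _ _
      rw [e5, ← h3]
      simp
    · refine ⟨insert i Z, (card_insert_le _ _).trans (by omega), ?_⟩
      intro j hj
      rw [mem_insert, not_or] at hj
      rw [if_neg hj.1, e3 j hj.2]
      simp
  have e6 := congrFun e4 i
  simp only [if_pos, Pi.zero_apply] at e6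
  rw [h2 i hi] at e6
  norm_num at e6
-- END face

-- BEGIN kernel
private theorem kernel_li {ι : Type} [Fintype ι] [DecidableEq ι] {w : ι → V} (hg : GP w)
    (s : Fin 4 → ι) (hs : Function.Injective s) : LinearIndependent ℝ (fun k => w (s k)) := by
  rw [Fintype.linearIndependent_iff]
  intro g hg0 k
  set c : ι → ℝ := fun j => ∑ k, if s k = j then g k else 0 with hc
  have h1 : ∑ j, c j • w j = ∑ k, g k • w (s k) := by
    simp only [hc, Finset.sum_smul]
    rw [Finset.sum_comm]
    apply Finset.sum_congr rfl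
    intro k _
    simp [ite_smul]
  have h2 : c = 0 := by
    apply hg c (by rw [h1]; exact hg0)
    refine ⟨Finset.univ.image s, ?_, ?_⟩
    · exact Finset.card_image_le.trans (by simp)
    · intro j hj
      simp only [hc]
      apply Finset.sum_eq_zero
      intro k _
      rw [if_neg]
      rintro rfl
      exact hj (Finset.mem_image_of_mem _ (Finset.mem_univ _))
  have h3 : c (s k) = g k := by
    simp only [hc]
    rw [Finset.sum_eq_single k]
    · simp
    · intro b _ hb
      rw [if_neg (fun h => hb (hs h))]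
    · simp
  rw [← h3, h2]; rfl

/-- a functional vanishing at four members is zero -/
theorem eq_zero_of_four {ι : Type} [Fintype ι] [DecidableEq ι] {w : ι → V} (hg : GP w)
    {x y z t : ι} (hd : [x, y, z, t].Nodup) (φ : V →ₗ[ℝ] ℝ) (hx : φ (w x) = 0)
    (hy : φ (w y) = 0) (hz : φ (w z) = 0) (ht : φ (w t) = 0) : φ = 0 := by
  have hs : Function.Injective ![x, y, z, t] := by
    simp only [List.nodup_cons, List.mem_cons, List.not_mem_nil, or_false, not_or,
      List.nodup_nil, and_true, not_false_eq_true] at hd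
    obtain ⟨⟨a1, a2, a3⟩, ⟨a4, a5⟩, a6⟩ := hd
    intro i j hij
    fin_cases i <;> fin_cases j <;> simp_all
  have hli := kernel_li hg ![x, y, z, t] hs
  have hcard : Fintype.card (Fin 4) = Module.finrank ℝ V := by simp [V]
  let b := basisOfLinearIndependentOfCardEqFinrank hli hcard
  apply b.ext
  intro k
  rw [coe_basisOfLinearIndependentOfCardEqFinrank]
  fin_cases k
  · simpa using hx
  · simpa using hy
  · simpa using hz
  · simpa using ht
-- END kernel

-- BEGIN plane
/-- the plane through three members: it meets no other member -/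
theorem exists_plane {ι : Type} [Fintype ι] [DecidableEq ι] {w : ι → V} (hg : GP w)
    {x y z : ι} (hd : [x, y, z].Nodup) :
    ∃ φ : V →ₗ[ℝ] ℝ, φ (w x) = 0 ∧ φ (w y) = 0 ∧ φ (w z) = 0 ∧
      ∀ k, k ≠ x → k ≠ y → k ≠ z → φ (w k) ≠ 0 := by
  let T : (V →ₗ[ℝ] ℝ) →ₗ[ℝ] (Fin 3 → ℝ) :=
    LinearMap.pi (fun i => LinearMap.applyₗ ((![w x, w y, w z] : Fin 3 → V) i))
  have hlt : Module.finrank ℝ (Fin 3 → ℝ) < Module.finrank ℝ (V →ₗ[ℝ] ℝ) := by
    rw [Module.finrank_linearMap]
    simp
  have hker := LinearMap.ker_ne_bot_of_finrank_lt (f := T) hlt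
  obtain ⟨φ, hφ, hφ0⟩ := (Submodule.ne_bot_iff _).1 hker
  have hT : T φ = 0 := hφ
  have h0 : φ (w x) = 0 := by
    have := congrFun hT 0
    simpa [T] using this
  have h1 : φ (w y) = 0 := by
    have := congrFun hT 1
    simpa [T] using this
  have h2 : φ (w z) = 0 := by
    have := congrFun hT 2
    simpa [T] using this
  refine ⟨φ, h0, h1, h2, ?_⟩
  intro k hkx hky hkz hk
  apply hφ0
  refine eq_zero_of_four hg (x := x) (y := y) (z := z) (t := k) ?_ φ h0 h1 h2 hk
  simp only [List.nodup_cons, List.mem_cons, List.not_mem_nil, or_false, not_or,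
    not_false_eq_true, List.nodup_nil, and_true] at hd ⊢
  exact ⟨⟨hd.1.1, hd.1.2, fun h => hkx h.symm⟩, ⟨hd.2, fun h => hky h.symm⟩,
    fun h => hkz h.symm⟩
-- END plane

end Pool.Agent.ES9
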