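import Pool.Agent.C1S.Cl

/-!
# A strictly convex body from labelled points

Points `x i` and ratios `c i` with vectors `u i j` (`i < j`) which separate the pair `i, j` strictly
better than any other pair: there is a strictly convex centrally symmetric body whose homothets
`x i + c i K` are pairwise tangent (an intersection of ellipsoids).
-/

set_option autoImplicit false

namespace Pool.Agent.ES9

open C1S Filter Topology

/-- the quadratic form of the ellipsoid with the point `z` and the normal `u` there -/
noncomputable def qf {m : ℕ} (u z : EuclideanSpace ℝ (Fin m)) (ε : ℝ)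
    (y : EuclideanSpace ℝ (Fin m)) : ℝ :=
  inner ℝ u y ^ 2 + ε * ‖y - (inner ℝ u y : ℝ) • z‖ ^ 2

theorem qf_neg {m : ℕ} (u z : EuclideanSpace ℝ (Fin m)) (ε : ℝ) (y : EuclideanSpace ℝ (Fin m)) :
    qf u z ε (-y) = qf u z ε y := by
  unfold qf
  have e : -y - (-(inner ℝ u y : ℝ)) • z = -(y - (inner ℝ u y : ℝ) • z) := by module
  rw [inner_neg_right, e, norm_neg, neg_sq]

theorem norm_comb {m : ℕ} (a b : ℝ) (hab : a + b = 1) (X Y : EuclideanSpace ℝ (Fin m)) :
    ‖a • X + b • Y‖ ^ 2 = a * ‖X‖ ^ 2 + b * ‖Y‖ ^ 2 - a * b * ‖X - Y‖ ^ 2 := by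
  rw [norm_add_sq_real, norm_sub_sq_real, norm_smul, norm_smul, real_inner_smul_left,
    real_inner_smul_right, mul_pow, mul_pow, Real.norm_eq_abs, Real.norm_eq_abs, sq_abs, sq_abs]
  have hb : b = 1 - a := by linarith
  rw [hb]
  ring

theorem qf_comb {m : ℕ} (u z : EuclideanSpace ℝ (Fin m)) (ε a b : ℝ) (hab : a + b = 1)
    (x y : EuclideanSpace ℝ (Fin m)) :
    qf u z ε (a • x + b • y) = a * qf u z ε x + b * qf u z ε y - a * b * qf u z ε (x - y) := by
  unfold qf
  have e1 : a • x + b • y - (inner ℝ u (a • x + b • y) : ℝ) • z =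
      a • (x - (inner ℝ u x : ℝ) • z) + b • (y - (inner ℝ u y : ℝ) • z) := by
    rw [inner_add_right, real_inner_smul_right, real_inner_smul_right]
    module
  have e2 : x - y - (inner ℝ u (x - y) : ℝ) • z =
      (x - (inner ℝ u x : ℝ) • z) - (y - (inner ℝ u y : ℝ) • z) := by
    rw [inner_sub_right]
    module
  rw [e1, e2, norm_comb a b hab, inner_add_right, inner_sub_right, real_inner_smul_right,
    real_inner_smul_right]
  have hb : b = 1 - a := by linarith
  rw [hb]
  ring

theorem qf_pos {m : ℕ} (u z : EuclideanSpace ℝ (Fin m)) {ε : ℝ} (hε : 0 < ε)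
    {y : EuclideanSpace ℝ (Fin m)} (hy : y ≠ 0) : 0 < qf u z ε y := by
  unfold qf
  by_cases h : inner ℝ u y = 0
  · rw [h, zero_smul, sub_zero]
    have := norm_pos_iff.2 hy
    positivity
  · have : 0 < inner ℝ u y ^ 2 := by positivity
    positivity

theorem continuous_qf {m : ℕ} (u z : EuclideanSpace ℝ (Fin m)) (ε : ℝ) :
    Continuous (qf u z ε) := by
  unfold qf
  fun_prop

theorem strictConvex_of_qf {m : ℕ} {ι : Type} [Finite ι]
    (u z : ι → EuclideanSpace ℝ (Fin m)) {ε : ℝ} (hε : 0 < ε) :
    StrictConvex ℝ {y | ∀ p, qf (u p) (z p) ε y ≤ 1} := by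
  intro x hx y hy hxy a b ha hb hab
  have hopen : IsOpen {y : EuclideanSpace ℝ (Fin m) | ∀ p, qf (u p) (z p) ε y < 1} := by
    rw [Set.ofPred_forall]
    exact isOpen_iInter_of_finite fun p => isOpen_lt (continuous_qf _ _ _) continuous_const
  have hsub : {y : EuclideanSpace ℝ (Fin m) | ∀ p, qf (u p) (z p) ε y < 1} ⊆
      interior {y | ∀ p, qf (u p) (z p) ε y ≤ 1} :=
    interior_maximal (fun y hy p => (hy p).le) hopen
  apply hsub
  intro p
  rw [qf_comb _ _ _ _ _ hab]
  have h1 := mul_le_mul_of_nonneg_left (hx p) ha.le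
  have h2 := mul_le_mul_of_nonneg_left (hy p) hb.le
  have h3 := mul_pos (mul_pos ha hb) (qf_pos (u p) (z p) hε (sub_ne_zero.2 hxy))
  linarith

/-- **A strictly convex body from labelled points.** -/
theorem exists_body {m n : ℕ} (hn : 0 < n) (c : Fin n → ℝ) (x : Fin n → EuclideanSpace ℝ (Fin m))
    (u : Fin n → Fin n → EuclideanSpace ℝ (Fin m)) (hc : ∀ i, 0 < c i)
    (h1 : ∀ i j, i < j → inner ℝ (u i j) (x i - x j) = c i + c j)
    (h2 : ∀ i j k l, i < j → k < l → (i ≠ k ∨ j ≠ l) →
      |inner ℝ (u i j) (x k - x l)| < c k + c l) :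
    ∃ K : Set (EuclideanSpace ℝ (Fin m)), StrictConvex ℝ K ∧ IsCompact K ∧
      (interior K).Nonempty ∧ (∀ y ∈ K, -y ∈ K) ∧
      ∀ i j, i ≠ j → (hom K (c i) (x i) ∩ hom K (c j) (x j)).Nonempty ∧
        interior (hom K (c i) (x i)) ∩ interior (hom K (c j) (x j)) = ∅ := by
  classical
  -- the points of contact
  set w : Fin n → Fin n → EuclideanSpace ℝ (Fin m) := fun i j => (c i + c j)⁻¹ • (x i - x j)
    with hw
  let U : Fin n × Fin n → EuclideanSpace ℝ (Fin m) := fun p => if p.1 < p.2 then u p.1 p.2 else 0
  let Z : Fin n × Fin n → EuclideanSpace ℝ (Fin m) := fun p => if p.1 < p.2 then w p.1 p.2 else 0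
  have hcc : ∀ i j, 0 < c i + c j := fun i j => add_pos (hc i) (hc j)
  have huw : ∀ i j, i < j → inner ℝ (u i j) (w i j) = 1 := by
    intro i j hij
    rw [hw]
    simp only
    rw [real_inner_smul_right, h1 i j hij, inv_mul_cancel₀ (hcc i j).ne']
  -- the constant
  obtain ⟨ε, hε, hq⟩ : ∃ ε : ℝ, 0 < ε ∧ ∀ p : Fin n × Fin n, ∀ k l : Fin n, k < l →
      qf (U p) (Z p) ε (w k l) ≤ 1 := by
    have hev : ∀ᶠ ε in 𝓝[>] (0 : ℝ), ∀ p : Fin n × Fin n, ∀ k l : Fin n, k < l →
        qf (U p) (Z p) ε (w k l) ≤ 1 := by
      rw [eventually_all]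
      intro p
      rw [eventually_all]
      intro k
      rw [eventually_all]
      intro l
      by_cases hkl : k < l
      · simp only [hkl, true_imp_iff]
        by_cases hp : p.1 < p.2 ∧ p.1 = k ∧ p.2 = l
        · obtain ⟨hp0, rfl, rfl⟩ := hp
          refine Eventually.of_forall fun ε => ?_
          simp only [U, Z, if_pos hkl, qf, huw _ _ hkl]
          simp
        · -- strict inequality at `ε = 0`
          have hlt : inner ℝ (U p) (w k l) ^ 2 < 1 := by
            by_cases hp0 : p.1 < p.2
            · have h3 := h2 p.1 p.2 k l hp0 hkl (by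
                by_contra hcon
                obtain ⟨h5, h6⟩ := not_or.1 hcon
                exact hp ⟨hp0, not_not.1 h5, not_not.1 h6⟩)
              simp only [U, if_pos hp0]
              rw [hw]
              simp only
              rw [real_inner_smul_right, mul_pow, ← sq_abs (inner ℝ (u p.1 p.2) (x k - x l)),
                inv_pow, inv_mul_lt_one₀ (by have := hcc k l; positivity)]
              exact pow_lt_pow_left₀ h3 (abs_nonneg _) (by norm_num)
            · simp only [U, if_neg hp0, inner_zero_left]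
              norm_num
          have hcont : Continuous fun ε : ℝ => qf (U p) (Z p) ε (w k l) := by
            unfold qf
            fun_prop
          have h0 : qf (U p) (Z p) 0 (w k l) < 1 := by
            unfold qf
            rw [zero_mul, add_zero]
            exact hlt
          have := (hcont.tendsto 0).eventually (gt_mem_nhds h0)
          exact (this.filter_mono nhdsWithin_le_nhds).mono fun ε h => h.le
      · exact Eventually.of_forall fun ε h => absurd h hkl
    obtain ⟨ε, h3, h4⟩ := (hev.and self_mem_nhdsWithin).exists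
    exact ⟨ε, h4, h3⟩
  set K : Set (EuclideanSpace ℝ (Fin m)) := {y | ∀ p, qf (U p) (Z p) ε y ≤ 1} with hK
  have hsym : ∀ y ∈ K, -y ∈ K := fun y hy p => by rw [qf_neg]; exact hy p
  have hwK : ∀ i j, i < j → w i j ∈ K := fun i j hij p => hq p i j hij
  have hcont : ∀ p, Continuous (qf (U p) (Z p) ε) := fun p => continuous_qf _ _ _
  -- the slabs
  have hslab : ∀ i j, i < j → ∀ y ∈ K, |inner ℝ (u i j) y| ≤ 1 := by
    intro i j hij y hy
    have h3 := hy (i, j)
    simp only [U, Z, if_pos hij] at h3
    unfold qf at h3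
    have h4 : 0 ≤ ε * ‖y - (inner ℝ (u i j) y : ℝ) • w i j‖ ^ 2 := by positivity
    exact (sq_le_one_iff_abs_le_one _).1 (by linarith)
  refine ⟨K, strictConvex_of_qf U Z hε, ?_, ?_, hsym, ?_⟩
  · -- compact
    apply Metric.isCompact_of_isClosed_isBounded
    · rw [hK, Set.ofPred_forall]
      exact isClosed_iInter fun p => isClosed_le (hcont p) continuous_const
    · rw [isBounded_iff_forall_norm_le]
      refine ⟨ε⁻¹ + 1, fun y hy => ?_⟩
      have h3 := hy (⟨0, hn⟩, ⟨0, hn⟩)
      simp only [U, Z, lt_irrefl, if_false] at h3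
      unfold qf at h3
      simp only [inner_zero_left, smul_zero, sub_zero] at h3
      have h4 : ‖y‖ ^ 2 ≤ ε⁻¹ := by
        rw [← one_div, le_div_iff₀ hε]
        nlinarith
      nlinarith [norm_nonneg y, inv_pos.2 hε]
  · -- interior
    refine ⟨0, ?_⟩
    have hopen : IsOpen {y : EuclideanSpace ℝ (Fin m) | ∀ p, qf (U p) (Z p) ε y < 1} := by
      rw [Set.ofPred_forall]
      exact isOpen_iInter_of_finite fun p => isOpen_lt (hcont p) continuous_const
    refine interior_maximal (fun y hy p => (hy p).le) hopen fun p => ?_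
    unfold qf
    simp
  · -- tangency
    have main : ∀ i j, i < j → (hom K (c i) (x i) ∩ hom K (c j) (x j)).Nonempty ∧
        interior (hom K (c i) (x i)) ∩ interior (hom K (c j) (x j)) = ∅ := by
      intro i j hij
      have hlt := hcc i j
      refine ⟨⟨x i + c i • (-w i j), ⟨-w i j, hsym _ (hwK i j hij), rfl⟩, ⟨w i j, hwK i j hij, ?_⟩⟩,
        ?_⟩
      · show x j + c j • w i j = x i + c i • (-w i j)
        have e : x i - x j = (c i + c j) • w i j := by
          rw [hw]
          simp only
          rw [smul_smul, mul_inv_cancel₀ hlt.ne', one_smul]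
        have e2 : x i = x j + (c i + c j) • w i j := by rw [← e]; abel
        rw [e2]
        module
      · rw [Set.eq_empty_iff_forall_notMem]
        rintro y ⟨hy1, hy2⟩
        have hlo : ∀ y ∈ hom K (c i) (x i), inner ℝ (u i j) (x i) - c i ≤ inner ℝ (u i j) y := by
          rintro _ ⟨y, hy, rfl⟩
          show _ ≤ inner ℝ (u i j) (x i + c i • y)
          have h3 := (abs_le.1 (hslab i j hij y hy)).1
          rw [inner_add_right, real_inner_smul_right]
          nlinarith [hc i]
        have hhi : ∀ y ∈ hom K (c j) (x j), inner ℝ (u i j) y ≤ inner ℝ (u i j) (x j) + c j := by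
          rintro _ ⟨y, hy, rfl⟩
          show inner ℝ (u i j) (x j + c j • y) ≤ _
          have h3 := (abs_le.1 (hslab i j hij y hy)).2
          rw [inner_add_right, real_inner_smul_right]
          nlinarith [hc j]
        have heq : inner ℝ (u i j) (x i) - c i = inner ℝ (u i j) (x j) + c j := by
          have := h1 i j hij
          rw [inner_sub_right] at this
          linarith
        have hu : u i j ≠ 0 := by
          intro h0
          have := huw i j hij
          rw [h0, inner_zero_left] at this
          norm_num at this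
        -- shift an interior point
        have huu : 0 < inner ℝ (u i j) (u i j) := real_inner_self_pos.2 hu
        obtain ⟨δ, hδ, hball⟩ := Metric.isOpen_iff.1 isOpen_interior y hy2
        have hun : 0 < ‖u i j‖ := norm_pos_iff.2 hu
        have hmem : y + (δ / (2 * ‖u i j‖)) • u i j ∈ hom K (c j) (x j) := by
          apply interior_subset
          apply hball
          rw [Metric.mem_ball, dist_eq_norm, add_sub_cancel_left, norm_smul, Real.norm_eq_abs,
            abs_of_pos (by positivity)]
          have : δ / (2 * ‖u i j‖) * ‖u i j‖ = δ / 2 := by field_simp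
          rw [this]; linarith
        have h3 := hhi _ hmem
        have h4 := hlo y (interior_subset hy1)
        rw [inner_add_right, real_inner_smul_right] at h3
        have h5 : 0 < δ / (2 * ‖u i j‖) * inner ℝ (u i j) (u i j) := by positivity
        linarith
    intro i j hij
    rcases lt_or_gt_of_ne hij with h | h
    · exact main i j h
    · obtain ⟨h3, h4⟩ := main j i h
      exact ⟨by rwa [Set.inter_comm], by rwa [Set.inter_comm]⟩

end Pool.Agent.ES9
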