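import Pool.Agent.ES9.Cases

set_option autoImplicit false

namespace Pool.Agent.ES9

open Finset

-- BEGIN bridge
theorem bridge_pos {w : Fin 9 → V} (hl : Light w) {A : Finset (Fin 9)}
    (hc : Cvx w A) (s : Fin 6 → Fin 9) (hs : Function.Injective s) (hsA : ∀ j, s j ∈ A)
    (hsA' : ∀ k ∈ A, ∃ j, s j = k) (c : Fin 6 → ℝ) (h0 : c ≠ 0) (hr : ∑ j, c j • w (s j) = 0) :
    ∃ i j, i ≠ j ∧ 0 < c i ∧ 0 < c j := by
  by_contra hcon
  push Not at hcon
  by_cases hp : ∃ i, 0 < c i
  · obtain ⟨i, hi⟩ := hp
    have hneg : ∀ j, j ≠ i → c j ≤ 0 := fun j hj => hcon i j (Ne.symm hj) hi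
    refine hc (s i) (hsA i) ⟨fun k => ∑ j ∈ univ.erase i, if s j = k then -c j / c i else 0,
      ?_, ?_, ?_⟩
    · intro k
      refine Finset.sum_nonneg fun j hj => ?_
      split_ifs
      · exact div_nonneg (by linarith [hneg j (Finset.ne_of_mem_erase hj)]) hi.le
      · exact le_refl _
    · intro k hk
      refine Finset.sum_eq_zero fun j hj => ?_
      rw [if_neg]
      intro h
      apply hk
      rw [← h]
      exact Finset.mem_erase.2 ⟨fun h2 => Finset.ne_of_mem_erase hj (hs h2), hsA j⟩
    · have h1 : ∑ k, (∑ j ∈ univ.erase i, if s j = k then -c j / c i else 0) • w k =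
          ∑ j ∈ univ.erase i, (-c j / c i) • w (s j) := by
        simp only [Finset.sum_smul]
        rw [Finset.sum_comm]
        refine Finset.sum_congr rfl fun j _ => ?_
        rw [Finset.sum_eq_single (s j)]
        · rw [if_pos rfl]
        · intro k _ hk
          rw [if_neg (Ne.symm hk), zero_smul]
        · intro h
          exact absurd (Finset.mem_univ _) h
      rw [h1]
      have h2 := Finset.add_sum_erase univ (fun j => c j • w (s j)) (Finset.mem_univ i)
      rw [hr] at h2
      have h3 : c i • w (s i) = ∑ j ∈ univ.erase i, (-c j) • w (s j) := by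
        rw [Finset.sum_congr rfl (fun j _ => neg_smul (c j) (w (s j))), Finset.sum_neg_distrib]
        exact eq_neg_of_add_eq_zero_left h2
      have h4 : w (s i) = (c i)⁻¹ • (c i • w (s i)) := by
        rw [smul_smul, inv_mul_cancel₀ hi.ne', one_smul]
      rw [h4, h3, Finset.smul_sum]
      refine Finset.sum_congr rfl fun j _ => ?_
      rw [smul_smul]
      congr 1
      field_simp
  · push Not at hp
    obtain ⟨y, hy⟩ := hl
    apply h0
    have h1 : ∑ j, c j * y (w (s j)) = 0 := by
      have := congrArg y hr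
      rw [map_sum, map_zero] at this
      simpa [map_smul] using this
    have h2 : ∑ j, -(c j * y (w (s j))) = 0 := by
      rw [Finset.sum_neg_distrib, h1, neg_zero]
    have h3 := (Finset.sum_eq_zero_iff_of_nonneg (s := univ)
      (f := fun j => -(c j * y (w (s j)))) (fun j _ => by
        have := mul_nonneg (neg_nonneg.2 (hp j)) (hy (s j)).le
        show 0 ≤ -(c j * y (w (s j)))
        linarith)).1 h2
    funext j
    have h4 := h3 j (Finset.mem_univ j)
    have h5 : c j * y (w (s j)) = 0 := by
      have : -(c j * y (w (s j))) = 0 := h4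
      linarith
    rcases mul_eq_zero.1 h5 with h | h
    · exact h
    · exact absurd h (hy (s j)).ne'

/-- six members in convex position: every nontrivial relation of the six has at least two positive
and at least two negative coefficients (no coefficient positive, or exactly one: the half space, or
that member in the cone of the others; at least five coefficients are nonzero anyway) -/
theorem bridge {w : Fin 9 → V} (hl : Light w) (hg : GP w) {A : Finset (Fin 9)} (hA : A.card = 6)
    (hc : Cvx w A) :
    ∃ s : Fin 6 → Fin 9, StrictMono s ∧ ∀ c : Fin 6 → ℝ, c ≠ 0 → ∑ j, c j • w (s j) = 0 →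
      (∃ i j, i ≠ j ∧ 0 < c i ∧ 0 < c j) ∧ (∃ i j, i ≠ j ∧ c i < 0 ∧ c j < 0) := by
  refine ⟨A.orderEmbOfFin hA, (A.orderEmbOfFin hA).strictMono, fun c h0 hr => ?_⟩
  have hinj : Function.Injective (A.orderEmbOfFin hA) := (A.orderEmbOfFin hA).injective
  have hmem : ∀ j, A.orderEmbOfFin hA j ∈ A := fun j => Finset.orderEmbOfFin_mem A hA j
  have hsur : ∀ k ∈ A, ∃ j, A.orderEmbOfFin hA j = k := by
    intro k hk
    have h1 := Finset.range_orderEmbOfFin A hA
    have h2 : k ∈ Set.range (A.orderEmbOfFin hA) := by rw [h1]; exact hk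
    exact h2
  refine ⟨bridge_pos hl hc _ hinj hmem hsur c h0 hr, ?_⟩
  obtain ⟨i, j, hij, hi, hj⟩ := bridge_pos hl hc _ hinj hmem hsur (-c) (neg_ne_zero.2 h0)
    (by
      simp only [Pi.neg_apply, neg_smul, Finset.sum_neg_distrib]
      rw [hr, neg_zero])
  rw [Pi.neg_apply] at hi hj
  exact ⟨i, j, hij, by linarith, by linarith⟩
-- END bridge

end Pool.Agent.ES9
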