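import Pool.Agent.ES9.CaseII

set_option autoImplicit false

namespace Pool.Agent.ES9

open Finset

-- BEGIN casei
/-- a facet plane of the bipyramid -/
theorem casei_facet {w : Fin 9 → V} (hg : GP w) {p q u v t : Fin 9}
    (hd : [p, q, u, v, t].Nodup) {α β γ δ ε : ℝ} (hβ : 0 < β) (hε : 0 < ε)
    (hr : α • w p + β • w q = γ • w u + δ • w v + ε • w t) :
    ∃ φ : V →ₗ[ℝ] ℝ, φ (w p) = 0 ∧ φ (w u) = 0 ∧ φ (w v) = 0 ∧ 0 < φ (w t) ∧ 0 < φ (w q) ∧
      ∀ k, k ≠ p → k ≠ u → k ≠ v → φ (w k) ≠ 0 := by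
  simp only [List.nodup_cons, List.mem_cons, List.not_mem_nil, or_false, not_or,
    not_false_eq_true, List.nodup_nil, and_true] at hd
  obtain ⟨⟨hpq, hpu, hpv, hpt⟩, ⟨hqu, hqv, hqt⟩, ⟨huv, hut⟩, hvt⟩ := hd
  obtain ⟨φ, h1, h2, h3, h4⟩ := exists_plane hg (x := p) (y := u) (z := v) (by
    simp only [List.nodup_cons, List.mem_cons, List.not_mem_nil, or_false, not_or,
      not_false_eq_true, List.nodup_nil, and_true]
    exact ⟨⟨hpu, hpv⟩, huv⟩)
  have he := congrArg φ hr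
  simp only [map_add, map_smul, smul_eq_mul, h1, h2, h3, mul_zero, zero_add] at he
  have ht : φ (w t) ≠ 0 := h4 t (Ne.symm hpt) (Ne.symm hut) (Ne.symm hvt)
  rcases lt_or_gt_of_ne ht with ht | ht
  · refine ⟨-φ, ?_, ?_, ?_, ?_, ?_, ?_⟩
    · rw [LinearMap.neg_apply, h1, neg_zero]
    · rw [LinearMap.neg_apply, h2, neg_zero]
    · rw [LinearMap.neg_apply, h3, neg_zero]
    · rw [LinearMap.neg_apply]; linarith
    · rw [LinearMap.neg_apply]
      have : φ (w q) < 0 := by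
        by_contra hcon
        push Not at hcon
        have h5 : 0 ≤ β * φ (w q) := mul_nonneg hβ.le hcon
        have h6 : ε * φ (w t) < 0 := mul_neg_of_pos_of_neg hε ht
        linarith
      linarith
    · intro k hk1 hk2 hk3
      rw [LinearMap.neg_apply]
      exact neg_ne_zero.mpr (h4 k hk1 hk2 hk3)
  · refine ⟨φ, h1, h2, h3, ht, ?_, h4⟩
    by_contra hcon
    push Not at hcon
    have h5 : β * φ (w q) ≤ 0 := mul_nonpos_of_nonneg_of_nonpos hβ.le hcon
    have h6 : 0 < ε * φ (w t) := mul_pos hε ht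
    linarith

/-- Case (3i): the five inner members are a bipyramid -/
theorem case_i {w : Fin 9 → V} (hl : Light w) (hg : GP w) (h : Fin 4 → Fin 9)
    (hinj : Function.Injective h) (hext : ∀ a, ¬ InCone w (univ.erase (h a)) (w (h a)))
    {p q u v t : Fin 9} (hd : [p, q, u, v, t].Nodup) (hI : ∀ i ∈ [p, q, u, v, t], ∀ a, i ≠ h a)
    {α β γ δ ε : ℝ} (hα : 0 < α) (hβ : 0 < β) (hγ : 0 < γ) (hδ : 0 < δ) (hε : 0 < ε)
    (hr : α • w p + β • w q = γ • w u + δ • w v + ε • w t) :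
    ∃ A : Finset (Fin 9), A.card = 6 ∧ Cvx w A := by
  by_contra hno
  have hd0 := hd
  simp only [List.nodup_cons, List.mem_cons, List.not_mem_nil, or_false, not_or,
    not_false_eq_true, List.nodup_nil, and_true] at hd
  obtain ⟨⟨hpq, hpu, hpv, hpt⟩, ⟨hqu, hqv, hqt⟩, ⟨huv, hut⟩, hvt⟩ := hd
  have hph : ∀ a, p ≠ h a := hI p (by simp)
  have hqh : ∀ a, q ≠ h a := hI q (by simp)
  have huh : ∀ a, u ≠ h a := hI u (by simp)
  have hvh : ∀ a, v ≠ h a := hI v (by simp)
  have hth : ∀ a, t ≠ h a := hI t (by simp)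
  have nd5 : ∀ x1 x2 x3 x4 x5 : Fin 9, x1 ≠ x2 → x1 ≠ x3 → x1 ≠ x4 → x1 ≠ x5 → x2 ≠ x3 →
      x2 ≠ x4 → x2 ≠ x5 → x3 ≠ x4 → x3 ≠ x5 → x4 ≠ x5 → [x1, x2, x3, x4, x5].Nodup := by
    intro x1 x2 x3 x4 x5 h1 h2 h3 h4 h5 h6 h7 h8 h9 h10
    simp only [List.nodup_cons, List.mem_cons, List.not_mem_nil, or_false, not_or,
      not_false_eq_true, List.nodup_nil, and_true]
    exact ⟨⟨h1, h2, h3, h4⟩, ⟨h5, h6, h7⟩, ⟨h8, h9⟩, h10⟩
  -- the six facets
  obtain ⟨φ0, p0, u0, v0, t0, q0, n0⟩ := casei_facet hg hd0 hβ hε hr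
  obtain ⟨φ1, p1, u1, t1, v1, q1, n1⟩ := casei_facet hg (p := p) (q := q) (u := u) (v := t)
    (t := v) (nd5 _ _ _ _ _ hpq hpu hpt hpv hqu hqt hqv hut huv (Ne.symm hvt)) hβ hδ
    (α := α) (γ := γ) (δ := ε) (by rw [hr]; abel)
  obtain ⟨φ2, p2, t2, v2, u2, q2, n2⟩ := casei_facet hg (p := p) (q := q) (u := t) (v := v)
    (t := u) (nd5 _ _ _ _ _ hpq hpt hpv hpu hqt hqv hqu (Ne.symm hvt) (Ne.symm hut)
      (Ne.symm huv)) hβ hγ
    (α := α) (γ := ε) (δ := δ) (by rw [hr]; abel)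
  have hr' : β • w q + α • w p = γ • w u + δ • w v + ε • w t := by rw [← hr]; abel
  obtain ⟨φ3, q3, u3, v3, t3, p3, n3⟩ := casei_facet hg (p := q) (q := p) (u := u) (v := v)
    (t := t) (nd5 _ _ _ _ _ (Ne.symm hpq) hqu hqv hqt hpu hpv hpt huv hut hvt) hα hε hr'
  obtain ⟨φ4, q4, u4, t4, v4, p4, n4⟩ := casei_facet hg (p := q) (q := p) (u := u) (v := t)
    (t := v) (nd5 _ _ _ _ _ (Ne.symm hpq) hqu hqt hqv hpu hpt hpv hut huv (Ne.symm hvt)) hα hδ
    (α := β) (γ := γ) (δ := ε) (by rw [hr']; abel)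
  obtain ⟨φ5, q5, t5, v5, u5, p5, n5⟩ := casei_facet hg (p := q) (q := p) (u := t) (v := v)
    (t := u) (nd5 _ _ _ _ _ (Ne.symm hpq) hqt hqv hqu hpt hpv hpu (Ne.symm hvt) (Ne.symm hut)
      (Ne.symm huv)) hα hγ
    (α := β) (γ := ε) (δ := δ) (by rw [hr']; abel)
  have hside : ∀ (ψ : V →ₗ[ℝ] ℝ) (x y z : Fin 9), x ≠ y → x ≠ z → y ≠ z → (∀ a, x ≠ h a) →
      (∀ a, y ≠ h a) → (∀ a, z ≠ h a) → ψ (w x) = 0 → ψ (w y) = 0 → ψ (w z) = 0 →
      ∀ a b c, a ≠ b → a ≠ c → b ≠ c → ¬ (0 < ψ (w (h a)) ∧ 0 < ψ (w (h b)) ∧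
        0 < ψ (w (h c))) := by
    intro ψ x y z hxy hxz hyz hxh hyh hzh h1 h2 h3 a b c hab hac hbc hpos
    refine hno (plane_six hg (H := Finset.univ.image h) ?_ (x := x) (y := y) (z := z)
      (u := h a) (v := h b) (t := h c) ?_ ?_ ?_ ?_ ψ h1 h2 h3 hpos.1 hpos.2.1 hpos.2.2)
    · intro i hi
      obtain ⟨a', _, rfl⟩ := Finset.mem_image.mp hi
      exact hext a'
    · simp only [List.nodup_cons, List.mem_cons, List.not_mem_nil, or_false, not_or,
        not_false_eq_true, List.nodup_nil, and_true]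
      exact ⟨⟨hxy, hxz, hxh a, hxh b, hxh c⟩, ⟨hyz, hyh a, hyh b, hyh c⟩,
        ⟨hzh a, hzh b, hzh c⟩, ⟨hinj.ne hab, hinj.ne hac⟩, hinj.ne hbc⟩
    · exact Finset.mem_image_of_mem h (Finset.mem_univ a)
    · exact Finset.mem_image_of_mem h (Finset.mem_univ b)
    · exact Finset.mem_image_of_mem h (Finset.mem_univ c)
  let Φ : Fin 6 → (V →ₗ[ℝ] ℝ) := ![φ0, φ1, φ2, φ3, φ4, φ5]
  have hΦ : ∀ k : Fin 6, ∃ x y z : Fin 9, x ≠ y ∧ x ≠ z ∧ y ≠ z ∧ (∀ a, x ≠ h a) ∧
      (∀ a, y ≠ h a) ∧ (∀ a, z ≠ h a) ∧ Φ k (w x) = 0 ∧ Φ k (w y) = 0 ∧ Φ k (w z) = 0 ∧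
      ∀ a, Φ k (w (h a)) ≠ 0 := by
    intro k
    fin_cases k
    · exact ⟨p, u, v, hpu, hpv, huv, hph, huh, hvh, p0, u0, v0,
        fun a => n0 _ (hph a).symm (huh a).symm (hvh a).symm⟩
    · exact ⟨p, u, t, hpu, hpt, hut, hph, huh, hth, p1, u1, t1,
        fun a => n1 _ (hph a).symm (huh a).symm (hth a).symm⟩
    · exact ⟨p, t, v, hpt, hpv, Ne.symm hvt, hph, hth, hvh, p2, t2, v2,
        fun a => n2 _ (hph a).symm (hth a).symm (hvh a).symm⟩
    · exact ⟨q, u, v, hqu, hqv, huv, hqh, huh, hvh, q3, u3, v3,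
        fun a => n3 _ (hqh a).symm (huh a).symm (hvh a).symm⟩
    · exact ⟨q, u, t, hqu, hqt, hut, hqh, huh, hth, q4, u4, t4,
        fun a => n4 _ (hqh a).symm (huh a).symm (hth a).symm⟩
    · exact ⟨q, t, v, hqt, hqv, Ne.symm hvt, hqh, hth, hvh, q5, t5, v5,
        fun a => n5 _ (hqh a).symm (hth a).symm (hvh a).symm⟩
  have hfalse : ∀ k a, decide (Φ k (w (h a)) < 0) = false → 0 < Φ k (w (h a)) := by
    intro k a hk
    have h1 : ¬ Φ k (w (h a)) < 0 := of_decide_eq_false hk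
    obtain ⟨_, _, _, _, _, _, _, _, _, _, _, _, h2⟩ := hΦ k
    exact lt_of_le_of_ne (not_lt.mp h1) (h2 a).symm
  obtain ⟨a, b, hab, -, -, -, -, -, -, a3, a4, a5, b3, b4, b5⟩ := comb_i
    (fun a k => decide (Φ k (w (h a)) < 0)) (by
      intro k a b c hab hac hbc hall
      obtain ⟨x, y, z, hxy, hxz, hyz, hx, hy, hz, h1, h2, h3, _⟩ := hΦ k
      refine hside (-Φ k) x y z hxy hxz hyz hx hy hz ?_ ?_ ?_ a b c hab hac hbc ⟨?_, ?_, ?_⟩
      · rw [LinearMap.neg_apply, h1, neg_zero]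
      · rw [LinearMap.neg_apply, h2, neg_zero]
      · rw [LinearMap.neg_apply, h3, neg_zero]
      · rw [LinearMap.neg_apply]; linarith [of_decide_eq_true hall.1]
      · rw [LinearMap.neg_apply]; linarith [of_decide_eq_true hall.2.1]
      · rw [LinearMap.neg_apply]; linarith [of_decide_eq_true hall.2.2])
    (by
      intro k a b c hab hac hbc hall
      obtain ⟨x, y, z, hxy, hxz, hyz, hx, hy, hz, h1, h2, h3, _⟩ := hΦ k
      exact hside (Φ k) x y z hxy hxz hyz hx hy hz h1 h2 h3 a b c hab hac hbc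
        ⟨hfalse k a hall.1, hfalse k b hall.2.1, hfalse k c hall.2.2⟩)
    (by
      intro a
      by_contra hcon
      have key : ∀ k : Fin 6, decide (Φ k (w (h a)) < 0) = false → ∀ n, Φ k (w n) = 0 →
          ∃ ψ : V →ₗ[ℝ] ℝ, ψ (w n) = 0 ∧ (∀ j ∈ [h a, p, q, u, v, t], 0 ≤ ψ (w j)) ∧
            ∃ x y z : Fin 9, x ∈ [h a, p, q, u, v, t] ∧ y ∈ [h a, p, q, u, v, t] ∧
              z ∈ [h a, p, q, u, v, t] ∧ x ≠ y ∧ x ≠ z ∧ y ≠ z ∧ 0 < ψ (w x) ∧
              0 < ψ (w y) ∧ 0 < ψ (w z) := by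
        intro k hk n hn
        have ha := hfalse k a hk
        refine ⟨Φ k, hn, ?_, ?_⟩
        · intro j hj
          simp only [List.mem_cons, List.not_mem_nil, or_false] at hj
          rcases hj with rfl | hj
          · exact ha.le
          · fin_cases k
            · change 0 ≤ φ0 (w j)
              rcases hj with rfl | rfl | rfl | rfl | rfl <;> simp [p0, u0, v0, t0.le, q0.le]
            · change 0 ≤ φ1 (w j)
              rcases hj with rfl | rfl | rfl | rfl | rfl <;> simp [p1, u1, t1, v1.le, q1.le]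
            · change 0 ≤ φ2 (w j)
              rcases hj with rfl | rfl | rfl | rfl | rfl <;> simp [p2, t2, v2, u2.le, q2.le]
            · change 0 ≤ φ3 (w j)
              rcases hj with rfl | rfl | rfl | rfl | rfl <;> simp [q3, u3, v3, t3.le, p3.le]
            · change 0 ≤ φ4 (w j)
              rcases hj with rfl | rfl | rfl | rfl | rfl <;> simp [q4, u4, t4, v4.le, p4.le]
            · change 0 ≤ φ5 (w j)
              rcases hj with rfl | rfl | rfl | rfl | rfl <;> simp [q5, t5, v5, u5.le, p5.le]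
        · fin_cases k
          · exact ⟨h a, t, q, by simp, by simp, by simp, (hth a).symm, (hqh a).symm,
              Ne.symm hqt, ha, t0, q0⟩
          · exact ⟨h a, v, q, by simp, by simp, by simp, (hvh a).symm, (hqh a).symm,
              Ne.symm hqv, ha, v1, q1⟩
          · exact ⟨h a, u, q, by simp, by simp, by simp, (huh a).symm, (hqh a).symm,
              Ne.symm hqu, ha, u2, q2⟩
          · exact ⟨h a, t, p, by simp, by simp, by simp, (hth a).symm, (hph a).symm,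
              Ne.symm hpt, ha, t3, p3⟩
          · exact ⟨h a, v, p, by simp, by simp, by simp, (hvh a).symm, (hph a).symm,
              Ne.symm hpv, ha, v4, p4⟩
          · exact ⟨h a, u, p, by simp, by simp, by simp, (huh a).symm, (hph a).symm,
              Ne.symm hpu, ha, u5, p5⟩
      refine hno (cvx_list hg [h a, p, q, u, v, t] ?_ rfl ?_)
      · simp only [List.nodup_cons, List.mem_cons, List.not_mem_nil, or_false, not_or,
          not_false_eq_true, List.nodup_nil, and_true]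
        exact ⟨⟨(hph a).symm, (hqh a).symm, (huh a).symm, (hvh a).symm, (hth a).symm⟩,
          ⟨hpq, hpu, hpv, hpt⟩, ⟨hqu, hqv, hqt⟩, ⟨huv, hut⟩, hvt⟩
      · simp only [not_or, not_and, Bool.not_eq_true] at hcon
        obtain ⟨c1, c2, c3, c4, c5⟩ := hcon
        intro n hn
        simp only [List.mem_cons, List.not_mem_nil, or_false] at hn
        rcases hn with rfl | rfl | rfl | rfl | rfl | rfl
        · exact Or.inl (hext a)
        · right
          by_cases s0 : decide (Φ 0 (w (h a)) < 0) = true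
          · by_cases s1 : decide (Φ 1 (w (h a)) < 0) = true
            · exact key 2 (c1 s0 s1) _ p2
            · exact key 1 (Bool.eq_false_iff.mpr s1) _ p1
          · exact key 0 (Bool.eq_false_iff.mpr s0) _ p0
        · right
          by_cases s0 : decide (Φ 3 (w (h a)) < 0) = true
          · by_cases s1 : decide (Φ 4 (w (h a)) < 0) = true
            · exact key 5 (c2 s0 s1) _ q5
            · exact key 4 (Bool.eq_false_iff.mpr s1) _ q4
          · exact key 3 (Bool.eq_false_iff.mpr s0) _ q3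
        · right
          by_cases s0 : decide (Φ 0 (w (h a)) < 0) = true
          · by_cases s1 : decide (Φ 1 (w (h a)) < 0) = true
            · by_cases s3 : decide (Φ 3 (w (h a)) < 0) = true
              · exact key 4 (c3 s0 s1 s3) _ u4
              · exact key 3 (Bool.eq_false_iff.mpr s3) _ u3
            · exact key 1 (Bool.eq_false_iff.mpr s1) _ u1
          · exact key 0 (Bool.eq_false_iff.mpr s0) _ u0
        · right
          by_cases s0 : decide (Φ 0 (w (h a)) < 0) = true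
          · by_cases s2 : decide (Φ 2 (w (h a)) < 0) = true
            · by_cases s3 : decide (Φ 3 (w (h a)) < 0) = true
              · exact key 5 (c4 s0 s2 s3) _ v5
              · exact key 3 (Bool.eq_false_iff.mpr s3) _ v3
            · exact key 2 (Bool.eq_false_iff.mpr s2) _ v2
          · exact key 0 (Bool.eq_false_iff.mpr s0) _ v0
        · right
          by_cases s1 : decide (Φ 1 (w (h a)) < 0) = true
          · by_cases s2 : decide (Φ 2 (w (h a)) < 0) = true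
            · by_cases s4 : decide (Φ 4 (w (h a)) < 0) = true
              · exact key 5 (c5 s1 s2 s4) _ t5
              · exact key 4 (Bool.eq_false_iff.mpr s4) _ t4
            · exact key 2 (Bool.eq_false_iff.mpr s2) _ t2
          · exact key 1 (Bool.eq_false_iff.mpr s1) _ t1)
  -- two members seeing no facet at `q`
  have ha3 : 0 < φ3 (w (h a)) := hfalse 3 a a3
  have hb3 : 0 < φ3 (w (h b)) := hfalse 3 b b3
  have ha4 : 0 < φ4 (w (h a)) := hfalse 4 a a4
  have hb4 : 0 < φ4 (w (h b)) := hfalse 4 b b4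
  refine hno (cvx_list hg [h a, h b, q, u, v, t] ?_ rfl ?_)
  · simp only [List.nodup_cons, List.mem_cons, List.not_mem_nil, or_false, not_or,
      not_false_eq_true, List.nodup_nil, and_true]
    exact ⟨⟨hinj.ne hab, (hqh a).symm, (huh a).symm, (hvh a).symm, (hth a).symm⟩,
      ⟨(hqh b).symm, (huh b).symm, (hvh b).symm, (hth b).symm⟩,
      ⟨hqu, hqv, hqt⟩, ⟨huv, hut⟩, hvt⟩
  · have key3 : ∀ n, φ3 (w n) = 0 → ∃ ψ : V →ₗ[ℝ] ℝ, ψ (w n) = 0 ∧
        (∀ j ∈ [h a, h b, q, u, v, t], 0 ≤ ψ (w j)) ∧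
        ∃ x y z : Fin 9, x ∈ [h a, h b, q, u, v, t] ∧ y ∈ [h a, h b, q, u, v, t] ∧
          z ∈ [h a, h b, q, u, v, t] ∧ x ≠ y ∧ x ≠ z ∧ y ≠ z ∧ 0 < ψ (w x) ∧
          0 < ψ (w y) ∧ 0 < ψ (w z) := by
      intro n hn
      refine ⟨φ3, hn, ?_, h a, h b, t, by simp, by simp, by simp, hinj.ne hab, (hth a).symm,
        (hth b).symm, ha3, hb3, t3⟩
      intro j hj
      simp only [List.mem_cons, List.not_mem_nil, or_false] at hj
      rcases hj with rfl | rfl | rfl | rfl | rfl | rfl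
      · exact ha3.le
      · exact hb3.le
      all_goals simp [q3, u3, v3, t3.le]
    intro n hn
    simp only [List.mem_cons, List.not_mem_nil, or_false] at hn
    rcases hn with rfl | rfl | rfl | rfl | rfl | rfl
    · exact Or.inl (hext a)
    · exact Or.inl (hext b)
    · exact Or.inr (key3 _ q3)
    · exact Or.inr (key3 _ u3)
    · exact Or.inr (key3 _ v3)
    · right
      refine ⟨φ4, t4, ?_, h a, h b, v, by simp, by simp, by simp, hinj.ne hab, (hvh a).symm,
        (hvh b).symm, ha4, hb4, v4⟩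
      intro j hj
      simp only [List.mem_cons, List.not_mem_nil, or_false] at hj
      rcases hj with rfl | rfl | rfl | rfl | rfl | rfl
      · exact ha4.le
      · exact hb4.le
      all_goals simp [q4, u4, v4.le, t4]
-- END casei

end Pool.Agent.ES9
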