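import Mathlib

set_option autoImplicit false

namespace Pool.Agent.ES9

-- BEGIN combi
private theorem combi_col (s : Fin 4 → Bool)
    (h1 : ∀ a b c, a ≠ b → a ≠ c → b ≠ c → ¬ (s a = true ∧ s b = true ∧ s c = true))
    (h2 : ∀ a b c, a ≠ b → a ≠ c → b ≠ c → ¬ (s a = false ∧ s b = false ∧ s c = false)) :
    (s 0).toNat + (s 1).toNat + (s 2).toNat + (s 3).toNat = 2 := by
  have a1 := h1 0 1 2 (by decide) (by decide) (by decide)
  have a2 := h1 0 1 3 (by decide) (by decide) (by decide)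
  have a3 := h1 0 2 3 (by decide) (by decide) (by decide)
  have a4 := h1 1 2 3 (by decide) (by decide) (by decide)
  have b1 := h2 0 1 2 (by decide) (by decide) (by decide)
  have b2 := h2 0 1 3 (by decide) (by decide) (by decide)
  have b3 := h2 0 2 3 (by decide) (by decide) (by decide)
  have b4 := h2 1 2 3 (by decide) (by decide) (by decide)
  revert a1 a2 a3 a4 b1 b2 b3 b4
  generalize s 0 = p0
  generalize s 1 = p1
  generalize s 2 = p2
  generalize s 3 = p3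
  cases p0 <;> cases p1 <;> cases p2 <;> cases p3 <;> simp

private theorem combi_two (s : Fin 4 → Bool)
    (h2 : ∀ a b c, a ≠ b → a ≠ c → b ≠ c → ¬ (s a = false ∧ s b = false ∧ s c = false)) :
    ∃ a b, a ≠ b ∧ s a = true ∧ s b = true := by
  by_contra hcon
  push Not at hcon
  have k : ∀ a b, a ≠ b → s a = false ∨ s b = false := by
    intro a b hab
    by_cases ha : s a = true
    · right
      exact Bool.eq_false_iff.2 (hcon a b hab ha)
    · left
      exact Bool.eq_false_iff.2 ha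
  have b1 := h2 0 1 2 (by decide) (by decide) (by decide)
  have b2 := h2 0 1 3 (by decide) (by decide) (by decide)
  have b3 := h2 0 2 3 (by decide) (by decide) (by decide)
  have b4 := h2 1 2 3 (by decide) (by decide) (by decide)
  have k1 := k 0 1 (by decide)
  have k2 := k 0 2 (by decide)
  have k3 := k 0 3 (by decide)
  have k4 := k 1 2 (by decide)
  have k5 := k 1 3 (by decide)
  have k6 := k 2 3 (by decide)
  revert b1 b2 b3 b4 k1 k2 k3 k4 k5 k6
  generalize s 0 = p0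
  generalize s 1 = p1
  generalize s 2 = p2
  generalize s 3 = p3
  cases p0 <;> cases p1 <;> cases p2 <;> cases p3 <;> simp

private theorem combi_row : ∀ s0 s1 s2 s3 s4 s5 : Bool,
    (s0 = true ∧ s1 = true ∧ s2 = true) ∨ (s3 = true ∧ s4 = true ∧ s5 = true) ∨
      (s0 = true ∧ s1 = true ∧ s3 = true ∧ s4 = true) ∨
      (s0 = true ∧ s2 = true ∧ s3 = true ∧ s5 = true) ∨
      (s1 = true ∧ s2 = true ∧ s4 = true ∧ s5 = true) →
    3 ≤ s0.toNat + s1.toNat + s2.toNat + s3.toNat + s4.toNat + s5.toNat ∧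
    (s0.toNat + s1.toNat + s2.toNat + s3.toNat + s4.toNat + s5.toNat ≤ 3 → s0 = true →
      s1 = true ∧ s2 = true ∧ s3 = false ∧ s4 = false ∧ s5 = false) := by
  intro s0 s1 s2 s3 s4 s5
  cases s0 <;> cases s1 <;> cases s2 <;> cases s3 <;> cases s4 <;> cases s5 <;> simp

/-- Case (3i). Rows: the four extreme members. Columns 0 = puv, 1 = put, 2 = pvt, 3 = quv, 4 = qut,
5 = qvt: the six facets of a bipyramid; `S a k` : `a` sees the facet `k`. -/
theorem comb_i (S : Fin 4 → Fin 6 → Bool)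
    (hc1 : ∀ k, ∀ a b c, a ≠ b → a ≠ c → b ≠ c →
      ¬ (S a k = true ∧ S b k = true ∧ S c k = true))
    (hc2 : ∀ k, ∀ a b c, a ≠ b → a ≠ c → b ≠ c →
      ¬ (S a k = false ∧ S b k = false ∧ S c k = false))
    (hr : ∀ a, (S a 0 = true ∧ S a 1 = true ∧ S a 2 = true) ∨
      (S a 3 = true ∧ S a 4 = true ∧ S a 5 = true) ∨
      (S a 0 = true ∧ S a 1 = true ∧ S a 3 = true ∧ S a 4 = true) ∨
      (S a 0 = true ∧ S a 2 = true ∧ S a 3 = true ∧ S a 5 = true) ∨
      (S a 1 = true ∧ S a 2 = true ∧ S a 4 = true ∧ S a 5 = true)) :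
    ∃ a b, a ≠ b ∧ S a 0 = true ∧ S a 1 = true ∧ S a 2 = true ∧ S b 0 = true ∧ S b 1 = true ∧
      S b 2 = true ∧ S a 3 = false ∧ S a 4 = false ∧ S a 5 = false ∧ S b 3 = false ∧
      S b 4 = false ∧ S b 5 = false := by
  have col := fun k => combi_col (fun a => S a k) (hc1 k) (hc2 k)
  have row := fun a => combi_row (S a 0) (S a 1) (S a 2) (S a 3) (S a 4) (S a 5) (hr a)
  have c0 := col 0
  have c1 := col 1
  have c2 := col 2
  have c3 := col 3
  have c4 := col 4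
  have c5 := col 5
  have r0 := (row 0).1
  have r1 := (row 1).1
  have r2 := (row 2).1
  have r3 := (row 3).1
  have hle : ∀ a, (S a 0).toNat + (S a 1).toNat + (S a 2).toNat + (S a 3).toNat +
      (S a 4).toNat + (S a 5).toNat ≤ 3 := by
    intro a
    fin_cases a
    · change (S 0 0).toNat + (S 0 1).toNat + (S 0 2).toNat + (S 0 3).toNat +
        (S 0 4).toNat + (S 0 5).toNat ≤ 3
      omega
    · change (S 1 0).toNat + (S 1 1).toNat + (S 1 2).toNat + (S 1 3).toNat +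
        (S 1 4).toNat + (S 1 5).toNat ≤ 3
      omega
    · change (S 2 0).toNat + (S 2 1).toNat + (S 2 2).toNat + (S 2 3).toNat +
        (S 2 4).toNat + (S 2 5).toNat ≤ 3
      omega
    · change (S 3 0).toNat + (S 3 1).toNat + (S 3 2).toNat + (S 3 3).toNat +
        (S 3 4).toNat + (S 3 5).toNat ≤ 3
      omega
  obtain ⟨a, b, hab, ha, hb⟩ := combi_two (fun a => S a 0) (hc2 0)
  obtain ⟨a1, a2, a3, a4, a5⟩ := (row a).2 (hle a) ha
  obtain ⟨b1, b2, b3, b4, b5⟩ := (row b).2 (hle b) hb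
  exact ⟨a, b, hab, ha, a1, a2, hb, b1, b2, a3, a4, a5, b3, b4, b5⟩
-- END combi

-- BEGIN comb2
/-- the column patterns -/
def comb2_pat (i : Fin 6) (a : Fin 4) : Bool :=
  Nat.testBit (match i with | 0 => 3 | 1 => 5 | 2 => 9 | 3 => 6 | 4 => 10 | 5 => 12) a

def comb2_sel (i j k l : Fin 6) (c : Fin 4) : Fin 6 := match c with | 0 => i | 1 => j | 2 => k | 3 => l

def comb2_any (f : Fin 4 → Bool) : Bool := f 0 || (f 1 || (f 2 || f 3))

theorem comb2_any_iff {f : Fin 4 → Bool} : comb2_any f = true ↔ ∃ a, f a = true := by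
  unfold comb2_any
  rw [Bool.or_eq_true, Bool.or_eq_true, Bool.or_eq_true]
  constructor
  · rintro (h | h | h | h)
    exacts [⟨0, h⟩, ⟨1, h⟩, ⟨2, h⟩, ⟨3, h⟩]
  · rintro ⟨a, h⟩
    match a, h with
    | 0, h => exact Or.inl h
    | 1, h => exact Or.inr (Or.inl h)
    | 2, h => exact Or.inr (Or.inr (Or.inl h))
    | 3, h => exact Or.inr (Or.inr (Or.inr h))

def comb2_all (f : Fin 6 → Bool) : Bool := f 0 && (f 1 && (f 2 && (f 3 && (f 4 && f 5))))

theorem comb2_all_spec {f : Fin 6 → Bool} (h : comb2_all f = true) (a : Fin 6) : f a = true := by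
  unfold comb2_all at h
  rw [Bool.and_eq_true, Bool.and_eq_true, Bool.and_eq_true, Bool.and_eq_true,
    Bool.and_eq_true] at h
  match a with
  | 0 => exact h.1
  | 1 => exact h.2.1
  | 2 => exact h.2.2.1
  | 3 => exact h.2.2.2.1
  | 4 => exact h.2.2.2.2.1
  | 5 => exact h.2.2.2.2.2

def comb2_one (N : Fin 4 → Fin 4 → Bool) : Bool :=
  comb2_any fun a => comb2_any fun b => !decide (a = b) && comb2_any fun k =>
    (!N a k && !N b k) && comb2_any fun l => !decide (k = l) && (!N a l && !N b l)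

def comb2_two (N : Fin 4 → Fin 4 → Bool) : Bool :=
  comb2_any fun a => comb2_any fun c => comb2_any fun z => (!N a z && N c z) && comb2_any fun t =>
    (N a t && !N c t) && comb2_any fun d => (!decide (a = d) && !decide (c = d)) &&
      (comb2_any (fun y => !decide (y = z) && (!N a y && !N d y)) &&
        comb2_any fun x => !decide (x = t) && (!N c x && !N d x))

def comb2_three (N : Fin 4 → Fin 4 → Bool) : Bool :=
  comb2_any fun x => comb2_any fun a => N a x && comb2_any fun b =>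
    (!decide (a = b) && N b x) && comb2_any fun c => !N c x && comb2_any fun z =>
      (!N b z && !N c z) && comb2_any fun t => (N c t && !N a t) && comb2_any fun d =>
        !decide (a = d) && (!N d x && (N d z && !N d t))

theorem comb2_main : (comb2_all fun i => comb2_all fun j => comb2_all fun k => comb2_all fun l =>
    comb2_one (fun a c => comb2_pat (comb2_sel i j k l c) a) ||
    (comb2_two (fun a c => comb2_pat (comb2_sel i j k l c) a) ||
    comb2_three (fun a c => comb2_pat (comb2_sel i j k l c) a))) = true := by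
  decide +kernel

theorem comb2_col (b0 b1 b2 b3 : Bool) (h1 : ¬ (b0 = true ∧ b1 = true ∧ b2 = true))
    (h2 : ¬ (b0 = true ∧ b1 = true ∧ b3 = true)) (h3 : ¬ (b0 = true ∧ b2 = true ∧ b3 = true))
    (h4 : ¬ (b1 = true ∧ b2 = true ∧ b3 = true)) (h5 : ¬ (b0 = false ∧ b1 = false ∧ b2 = false))
    (h6 : ¬ (b0 = false ∧ b1 = false ∧ b3 = false)) (h7 : ¬ (b0 = false ∧ b2 = false ∧ b3 = false))
    (h8 : ¬ (b1 = false ∧ b2 = false ∧ b3 = false)) :
    ∃ i : Fin 6, b0 = comb2_pat i 0 ∧ b1 = comb2_pat i 1 ∧ b2 = comb2_pat i 2 ∧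
      b3 = comb2_pat i 3 := by
  cases b0 <;> cases b1 <;> cases b2 <;> cases b3
  · exact absurd ⟨rfl, rfl, rfl⟩ h5
  · exact absurd ⟨rfl, rfl, rfl⟩ h5
  · exact absurd ⟨rfl, rfl, rfl⟩ h6
  · exact ⟨5, by decide⟩
  · exact absurd ⟨rfl, rfl, rfl⟩ h7
  · exact ⟨4, by decide⟩
  · exact ⟨3, by decide⟩
  · exact absurd ⟨rfl, rfl, rfl⟩ h4
  · exact absurd ⟨rfl, rfl, rfl⟩ h8
  · exact ⟨2, by decide⟩
  · exact ⟨1, by decide⟩
  · exact absurd ⟨rfl, rfl, rfl⟩ h3
  · exact ⟨0, by decide⟩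
  · exact absurd ⟨rfl, rfl, rfl⟩ h2
  · exact absurd ⟨rfl, rfl, rfl⟩ h1
  · exact absurd ⟨rfl, rfl, rfl⟩ h1

/-- Case (3ii), sign part. Rows: extreme members; columns: `x y z t`; `N a k` : negative. -/
theorem comb_signs (N : Fin 4 → Fin 4 → Bool)
    (hc1 : ∀ k, ∀ a b c, a ≠ b → a ≠ c → b ≠ c →
      ¬ (N a k = true ∧ N b k = true ∧ N c k = true))
    (hc2 : ∀ k, ∀ a b c, a ≠ b → a ≠ c → b ≠ c →
      ¬ (N a k = false ∧ N b k = false ∧ N c k = false)) :
    (∃ a b k l, a ≠ b ∧ k ≠ l ∧ N a k = false ∧ N b k = false ∧ N a l = false ∧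
      N b l = false) ∨
    (∃ a c d x y z t, a ≠ d ∧ c ≠ d ∧ z ≠ t ∧ y ≠ z ∧ x ≠ t ∧ N a z = false ∧ N a t = true ∧
      N c z = true ∧ N c t = false ∧ N a y = false ∧ N d y = false ∧ N c x = false ∧
      N d x = false) ∨
    (∃ a b c d x z t, a ≠ b ∧ b ≠ c ∧ a ≠ d ∧ x ≠ z ∧ x ≠ t ∧ z ≠ t ∧ N c x = false ∧
      N c t = true ∧ N b z = false ∧ N c z = false ∧ N d x = false ∧ N d z = true ∧
      N a t = false ∧ N d t = false ∧ N a x = true ∧ N b x = true) := by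
  have h1 : ∀ k, ∃ i : Fin 6, N 0 k = comb2_pat i 0 ∧ N 1 k = comb2_pat i 1 ∧
      N 2 k = comb2_pat i 2 ∧ N 3 k = comb2_pat i 3 := fun k =>
    comb2_col (N 0 k) (N 1 k) (N 2 k) (N 3 k)
      (hc1 k 0 1 2 (by decide) (by decide) (by decide))
      (hc1 k 0 1 3 (by decide) (by decide) (by decide))
      (hc1 k 0 2 3 (by decide) (by decide) (by decide))
      (hc1 k 1 2 3 (by decide) (by decide) (by decide))
      (hc2 k 0 1 2 (by decide) (by decide) (by decide))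
      (hc2 k 0 1 3 (by decide) (by decide) (by decide))
      (hc2 k 0 2 3 (by decide) (by decide) (by decide))
      (hc2 k 1 2 3 (by decide) (by decide) (by decide))
  choose i hi using h1
  have h2 : N = fun a c => comb2_pat (comb2_sel (i 0) (i 1) (i 2) (i 3) c) a := by
    funext a c
    have hc : comb2_sel (i 0) (i 1) (i 2) (i 3) c = i c := by
      match c with
      | 0 => rfl
      | 1 => rfl
      | 2 => rfl
      | 3 => rfl
    rw [hc]
    match a with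
    | 0 => exact (hi c).1
    | 1 => exact (hi c).2.1
    | 2 => exact (hi c).2.2.1
    | 3 => exact (hi c).2.2.2
  have h3 := comb2_all_spec (comb2_all_spec (comb2_all_spec (comb2_all_spec comb2_main (i 0)) (i 1))
    (i 2)) (i 3)
  rw [← h2] at h3
  simp only [comb2_one, comb2_two, comb2_three, Bool.or_eq_true, Bool.and_eq_true, comb2_any_iff,
    Bool.not_eq_true', decide_eq_false_iff_not] at h3
  rcases h3 with ⟨a, b, hab, k, ⟨e1, e2⟩, l, hkl, e3, e4⟩ |
    ⟨a, c, z, ⟨e1, e2⟩, t, ⟨e3, e4⟩, d, ⟨had, hcd⟩, ⟨y, hy, e5, e6⟩, x, hx, e7, e8⟩ |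
    ⟨x, a, e1, b, ⟨hab, e2⟩, c, e3, z, ⟨e4, e5⟩, t, ⟨e6, e7⟩, d, had, e8, e9, e10⟩
  · exact Or.inl ⟨a, b, k, l, hab, hkl, e1, e2, e3, e4⟩
  · refine Or.inr (Or.inl ⟨a, c, d, x, y, z, t, had, hcd, ?_, hy, hx, e1, e3, e2, e4, e5, e6, e7,
      e8⟩)
    rintro rfl
    rw [e1] at e3
    exact Bool.noConfusion e3
  · refine Or.inr (Or.inr ⟨a, b, c, d, x, z, t, hab, ?_, had, ?_, ?_, ?_, e3, e6, e4, e5, e8, e9,
      e7, e10, e1, e2⟩)
    · rintro rfl
      rw [e2] at e3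
      exact Bool.noConfusion e3
    · rintro rfl
      rw [e8] at e9
      exact Bool.noConfusion e9
    · rintro rfl
      rw [e3] at e6
      exact Bool.noConfusion e6
    · rintro rfl
      rw [e5] at e6
      exact Bool.noConfusion e6
-- END comb2

-- BEGIN comb3
/-- Case (3ii) with the order of the entries -/
theorem comb_ii (M : Fin 4 → Fin 4 → ℝ) (hne : ∀ a k, M a k ≠ 0)
    (hdis : ∀ a k l, k ≠ l → M a k ≠ M a l)
    (hc1 : ∀ k, ∀ a b c, a ≠ b → a ≠ c → b ≠ c → ¬ (M a k < 0 ∧ M b k < 0 ∧ M c k < 0))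
    (hc2 : ∀ k, ∀ a b c, a ≠ b → a ≠ c → b ≠ c → ¬ (0 < M a k ∧ 0 < M b k ∧ 0 < M c k)) :
    (∃ a b k l, a ≠ b ∧ k ≠ l ∧ 0 < M a k ∧ 0 < M b k ∧ 0 < M a l ∧ 0 < M b l) ∨
    (∃ a b k l, a ≠ b ∧ k ≠ l ∧ M a l < M a k ∧ M b l < M b k ∧
      ((∃ m, m ≠ k ∧ 0 < M a m ∧ 0 < M b m) ∨
       (∃ m, m ≠ k ∧ m ≠ l ∧ M a l < M a m ∧ M b l < M b m))) := by
  classical
  have hT : ∀ a k, decide (M a k < 0) = true → M a k < 0 := fun a k h => of_decide_eq_true h
  have hF : ∀ a k, decide (M a k < 0) = false → 0 < M a k := fun a k h =>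
    lt_of_le_of_ne (not_lt.1 (of_decide_eq_false h)) (hne a k).symm
  rcases comb_signs (fun a k => decide (M a k < 0))
    (fun k a b c hab hac hbc h => hc1 k a b c hab hac hbc
      ⟨hT _ _ h.1, hT _ _ h.2.1, hT _ _ h.2.2⟩)
    (fun k a b c hab hac hbc h => hc2 k a b c hab hac hbc
      ⟨hF _ _ h.1, hF _ _ h.2.1, hF _ _ h.2.2⟩) with h | h | h
  · obtain ⟨a, b, k, l, hab, hkl, h1, h2, h3, h4⟩ := h
    exact Or.inl ⟨a, b, k, l, hab, hkl, hF _ _ h1, hF _ _ h2, hF _ _ h3, hF _ _ h4⟩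
  · obtain ⟨a, c, d, x, y, z, t, had, hcd, hzt, hyz, hxt, h1, h2, h3, h4, h5, h6, h7, h8⟩ := h
    refine Or.inr ?_
    rcases lt_or_gt_of_ne (hdis d z t hzt) with h | h
    · exact ⟨c, d, t, z, hcd, hzt.symm, lt_trans (hT _ _ h3) (hF _ _ h4), h,
        Or.inl ⟨x, hxt, hF _ _ h7, hF _ _ h8⟩⟩
    · exact ⟨a, d, z, t, had, hzt, lt_trans (hT _ _ h2) (hF _ _ h1), h,
        Or.inl ⟨y, hyz, hF _ _ h5, hF _ _ h6⟩⟩
  · obtain ⟨a, b, c, d, x, z, t, hab, hbc, had, hxz, hxt, hzt, h1, h2, h3, h4, h5, h6, h7, h8,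
      h9, h10⟩ := h
    refine Or.inr ?_
    rcases lt_or_gt_of_ne (hdis b x t hxt) with h | h
    · rcases lt_or_gt_of_ne (hdis a x z hxz) with h' | h'
      · exact ⟨a, b, z, x, hab, hxz.symm, h', lt_trans (hT _ _ h10) (hF _ _ h3),
          Or.inr ⟨t, hzt.symm, hxt.symm, lt_trans (hT _ _ h9) (hF _ _ h7), h⟩⟩
      · exact ⟨a, d, x, z, had, hxz, h', lt_trans (hT _ _ h6) (hF _ _ h5),
          Or.inl ⟨t, hxt.symm, hF _ _ h7, hF _ _ h8⟩⟩
    · exact ⟨b, c, x, t, hbc, hxt, h, lt_trans (hT _ _ h2) (hF _ _ h1),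
        Or.inl ⟨z, hxz.symm, hF _ _ h3, hF _ _ h4⟩⟩
-- END comb3

end Pool.Agent.ES9
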