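import Pool.Agent.ES9.Hull
import Pool.Agent.ES9.Comb

set_option autoImplicit false

namespace Pool.Agent.ES9

open Finset

-- BEGIN caseii
/-- six different members, each extreme or on a plane with the rest on one side, three of them
strictly: convex position -/
theorem cvx_list {w : Fin 9 → V} (hg : GP w) (L : List (Fin 9)) (hL : L.Nodup)
    (h6 : L.length = 6)
    (h : ∀ i ∈ L, (¬ InCone w (univ.erase i) (w i)) ∨ ∃ φ : V →ₗ[ℝ] ℝ, φ (w i) = 0 ∧
      (∀ j ∈ L, 0 ≤ φ (w j)) ∧ ∃ x y z : Fin 9, x ∈ L ∧ y ∈ L ∧ z ∈ L ∧ x ≠ y ∧ x ≠ z ∧ y ≠ z ∧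
        0 < φ (w x) ∧ 0 < φ (w y) ∧ 0 < φ (w z)) :
    ∃ A : Finset (Fin 9), A.card = 6 ∧ Cvx w A := by
  refine ⟨L.toFinset, ?_, ?_⟩
  · rw [List.toFinset_card_of_nodup hL, h6]
  intro i hi
  have hiL : i ∈ L := List.mem_toFinset.mp hi
  rcases h i hiL with h1 | ⟨φ, h0, hp, x, y, z, hx, hy, hz, hxy, hxz, hyz, hx', hy', hz'⟩
  · intro hc
    exact h1 (hc.mono (Finset.erase_subset_erase i (Finset.subset_univ _)))
  · have hix : x ≠ i := by rintro rfl; rw [h0] at hx'; exact lt_irrefl _ hx'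
    have hiy : y ≠ i := by rintro rfl; rw [h0] at hy'; exact lt_irrefl _ hy'
    have hiz : z ≠ i := by rintro rfl; rw [h0] at hz'; exact lt_irrefl _ hz'
    refine face hg (i := i) (A := L.toFinset.erase i) (Finset.notMem_erase i _) φ h0 ?_
      (((L.toFinset.erase i).erase x).erase y |>.erase z) ?_ ?_
    · intro j hj
      exact hp j (List.mem_toFinset.mp (Finset.mem_of_mem_erase hj))
    · have hcard : L.toFinset.card = 6 := by rw [List.toFinset_card_of_nodup hL, h6]
      rw [Finset.card_erase_of_mem, Finset.card_erase_of_mem, Finset.card_erase_of_mem,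
        Finset.card_erase_of_mem hi, hcard]
      · norm_num
      · simp [hix, hx]
      · simp [hiy, hy, hxy.symm]
      · simp [hiz, hz, hxz.symm, hyz.symm]
    · intro j hj hjZ
      have : j = x ∨ j = y ∨ j = z := by
        by_contra hcon
        push Not at hcon
        exact hjZ (Finset.mem_erase.mpr ⟨hcon.2.2, Finset.mem_erase.mpr ⟨hcon.2.1,
          Finset.mem_erase.mpr ⟨hcon.1, hj⟩⟩⟩)
      rcases this with rfl | rfl | rfl
      · exact hx'.ne'
      · exact hy'.ne'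
      · exact hz'.ne'

/-- Case (3ii): the five inner members are a tetrahedron with a point inside -/
theorem case_ii {w : Fin 9 → V} (hl : Light w) (hg : GP w) (h : Fin 4 → Fin 9)
    (hinj : Function.Injective h) (hext : ∀ a, ¬ InCone w (univ.erase (h a)) (w (h a)))
    {s : Fin 9} {T : Fin 4 → Fin 9} (hT : Function.Injective T) (hs : ∀ k, s ≠ T k)
    (hsh : ∀ a, s ≠ h a) (hTh : ∀ k a, T k ≠ h a)
    {α : Fin 4 → ℝ} (hα : ∀ k, 0 < α k) (hr : w s = ∑ k, α k • w (T k)) :
    ∃ A : Finset (Fin 9), A.card = 6 ∧ Cvx w A := by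
  by_contra hno
  have hcomp : ∀ k : Fin 4, ∃ x y z : Fin 4, [x, y, z, k].Nodup ∧
      ∀ l, l ≠ k → l = x ∨ l = y ∨ l = z := by decide
  -- the functionals
  have hφ : ∀ k : Fin 4, ∃ φ : V →ₗ[ℝ] ℝ, (∀ l, l ≠ k → φ (w (T l)) = 0) ∧ φ (w s) = 1 ∧
      0 < φ (w (T k)) ∧ ∀ a, φ (w (h a)) ≠ 0 := by
    intro k
    obtain ⟨x, y, z, hd, hl3⟩ := hcomp k
    have hd' : [T x, T y, T z].Nodup := by
      simp only [List.nodup_cons, List.mem_cons, List.not_mem_nil, or_false, not_or,
        not_false_eq_true, List.nodup_nil, and_true] at hd ⊢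
      exact ⟨⟨hT.ne hd.1.1, hT.ne hd.1.2.1⟩, hT.ne hd.2.1.1⟩
    obtain ⟨φ, h1, h2, h3, h4⟩ := exists_plane hg hd'
    have hs0 : φ (w s) ≠ 0 := h4 s (hs x) (hs y) (hs z)
    have hzero : ∀ l, l ≠ k → φ (w (T l)) = 0 := by
      intro l hlk
      rcases hl3 l hlk with rfl | rfl | rfl
      · exact h1
      · exact h2
      · exact h3
    have hsk : φ (w s) = α k * φ (w (T k)) := by
      rw [hr, map_sum, Finset.sum_eq_single k]
      · rw [map_smul, smul_eq_mul]
      · intro l _ hlk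
        rw [map_smul, hzero l hlk, smul_zero]
      · intro hk; exact absurd (Finset.mem_univ k) hk
    refine ⟨(φ (w s))⁻¹ • φ, ?_, ?_, ?_, ?_⟩
    · intro l hlk
      simp [hzero l hlk]
    · simp [hs0]
    · have : (φ (w s))⁻¹ * φ (w (T k)) = 1 / α k := by
        have hαk := (hα k).ne'
        field_simp
        rw [hsk]
        ring
      rw [LinearMap.smul_apply, smul_eq_mul, this]
      exact one_div_pos.mpr (hα k)
    · intro a
      rw [LinearMap.smul_apply, smul_eq_mul]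
      exact mul_ne_zero (inv_ne_zero hs0) (h4 _ (hTh x a).symm (hTh y a).symm (hTh z a).symm)
  choose φ hφ0 hφs hφT hφh using hφ
  have hside : ∀ (ψ : V →ₗ[ℝ] ℝ) (x y z : Fin 9), [x, y, z].Nodup → (∀ a, x ≠ h a) →
      (∀ a, y ≠ h a) → (∀ a, z ≠ h a) → ψ (w x) = 0 → ψ (w y) = 0 → ψ (w z) = 0 →
      ∀ a b c, a ≠ b → a ≠ c → b ≠ c → ¬ (0 < ψ (w (h a)) ∧ 0 < ψ (w (h b)) ∧
        0 < ψ (w (h c))) := by
    intro ψ x y z hd hxh hyh hzh h1 h2 h3 a b c hab hac hbc hpos
    refine hno (plane_six hg (H := Finset.univ.image h) ?_ (x := x) (y := y) (z := z)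
      (u := h a) (v := h b) (t := h c) ?_ ?_ ?_ ?_ ψ h1 h2 h3 hpos.1 hpos.2.1 hpos.2.2)
    · intro i hi
      obtain ⟨a', _, rfl⟩ := Finset.mem_image.mp hi
      exact hext a'
    · simp only [List.nodup_cons, List.mem_cons, List.not_mem_nil, or_false, not_or,
        not_false_eq_true, List.nodup_nil, and_true] at hd ⊢
      exact ⟨⟨hd.1.1, hd.1.2, hxh a, hxh b, hxh c⟩, ⟨hd.2, hyh a, hyh b, hyh c⟩,
        ⟨hzh a, hzh b, hzh c⟩, ⟨hinj.ne hab, hinj.ne hac⟩, hinj.ne hbc⟩
    · exact Finset.mem_image_of_mem h (Finset.mem_univ a)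
    · exact Finset.mem_image_of_mem h (Finset.mem_univ b)
    · exact Finset.mem_image_of_mem h (Finset.mem_univ c)
  have hcol : ∀ k, ∃ x y z : Fin 9, [x, y, z].Nodup ∧ (∀ a, x ≠ h a) ∧ (∀ a, y ≠ h a) ∧
      (∀ a, z ≠ h a) ∧ φ k (w x) = 0 ∧ φ k (w y) = 0 ∧ φ k (w z) = 0 := by
    intro k
    obtain ⟨x, y, z, hd, _⟩ := hcomp k
    simp only [List.nodup_cons, List.mem_cons, List.not_mem_nil, or_false, not_or,
      not_false_eq_true, List.nodup_nil, and_true] at hd
    refine ⟨T x, T y, T z, ?_, hTh x, hTh y, hTh z, hφ0 k x hd.1.2.2, hφ0 k y hd.2.1.2,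
      hφ0 k z hd.2.2⟩
    simp only [List.nodup_cons, List.mem_cons, List.not_mem_nil, or_false, not_or,
      not_false_eq_true, List.nodup_nil, and_true]
    exact ⟨⟨hT.ne hd.1.1, hT.ne hd.1.2.1⟩, hT.ne hd.2.1.1⟩
  have hc2 : ∀ k, ∀ a b c, a ≠ b → a ≠ c → b ≠ c →
      ¬ (0 < φ k (w (h a)) ∧ 0 < φ k (w (h b)) ∧ 0 < φ k (w (h c))) := by
    intro k a b c hab hac hbc
    obtain ⟨x, y, z, hd, hx, hy, hz, h1, h2, h3⟩ := hcol k
    exact hside (φ k) x y z hd hx hy hz h1 h2 h3 a b c hab hac hbc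
  have hc1 : ∀ k, ∀ a b c, a ≠ b → a ≠ c → b ≠ c →
      ¬ (φ k (w (h a)) < 0 ∧ φ k (w (h b)) < 0 ∧ φ k (w (h c)) < 0) := by
    intro k a b c hab hac hbc hneg
    obtain ⟨x, y, z, hd, hx, hy, hz, h1, h2, h3⟩ := hcol k
    refine hside (-φ k) x y z hd hx hy hz ?_ ?_ ?_ a b c hab hac hbc ⟨?_, ?_, ?_⟩
    · rw [LinearMap.neg_apply, h1, neg_zero]
    · rw [LinearMap.neg_apply, h2, neg_zero]
    · rw [LinearMap.neg_apply, h3, neg_zero]
    · rw [LinearMap.neg_apply]; linarith [hneg.1]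
    · rw [LinearMap.neg_apply]; linarith [hneg.2.1]
    · rw [LinearMap.neg_apply]; linarith [hneg.2.2]
  -- values of a difference
  have hdiff : ∀ k l, k ≠ l → (φ k - φ l) (w s) = 0 ∧ 0 < (φ k - φ l) (w (T k)) ∧
      ∀ j, j ≠ k → j ≠ l → (φ k - φ l) (w (T j)) = 0 := by
    intro k l hkl
    refine ⟨?_, ?_, ?_⟩
    · rw [LinearMap.sub_apply, hφs, hφs, sub_self]
    · rw [LinearMap.sub_apply, hφ0 l k hkl, sub_zero]
      exact hφT k
    · intro j hjk hjl
      rw [LinearMap.sub_apply, hφ0 k j hjk, hφ0 l j hjl, sub_zero]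
  have hcomp2 : ∀ k l : Fin 4, k ≠ l → ∃ i j : Fin 4, i ≠ j ∧ i ≠ k ∧ i ≠ l ∧ j ≠ k ∧ j ≠ l ∧
      ∀ m, m ≠ l → m = k ∨ m = i ∨ m = j := by decide
  have hdis : ∀ a k l, k ≠ l → φ k (w (h a)) ≠ φ l (w (h a)) := by
    intro a k l hkl heq
    obtain ⟨i, j, hij, hik, hil, hjk, hjl, _⟩ := hcomp2 k l hkl
    obtain ⟨h1, h2, h3⟩ := hdiff k l hkl
    have h0 : φ k - φ l = 0 := by
      refine eq_zero_of_four hg (x := s) (y := T i) (z := T j) (t := h a) ?_ _ h1 (h3 i hik hil)
        (h3 j hjk hjl) ?_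
      · simp only [List.nodup_cons, List.mem_cons, List.not_mem_nil, or_false, not_or,
          not_false_eq_true, List.nodup_nil, and_true]
        exact ⟨⟨hs i, hs j, hsh a⟩, ⟨hT.ne hij, hTh i a⟩, hTh j a⟩
      · rw [LinearMap.sub_apply, heq, sub_self]
    rw [h0] at h2
    exact lt_irrefl _ h2
  rcases comb_ii (fun a k => φ k (w (h a))) (fun a k => hφh k a) hdis hc1 hc2 with
    ⟨a, b, k, l, hab, hkl, hak, hbk, hal, hbl⟩ | ⟨a, b, k, l, hab, hkl, hak, hbk, hm⟩
  · -- {h a, h b, T 0, .., T 3}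
    obtain ⟨i, j, hij, hik, hil, hjk, hjl, hall⟩ := hcomp2 k l hkl
    refine hno (cvx_list hg [h a, h b, T k, T l, T i, T j] ?_ rfl ?_)
    · simp only [List.nodup_cons, List.mem_cons, List.not_mem_nil, or_false, not_or,
        not_false_eq_true, List.nodup_nil, and_true]
      exact ⟨⟨hinj.ne hab, (hTh k a).symm, (hTh l a).symm, (hTh i a).symm, (hTh j a).symm⟩,
        ⟨(hTh k b).symm, (hTh l b).symm, (hTh i b).symm, (hTh j b).symm⟩,
        ⟨hT.ne hkl, hT.ne hik.symm, hT.ne hjk.symm⟩, ⟨hT.ne hil.symm, hT.ne hjl.symm⟩, hT.ne hij⟩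
    · -- a plane `φ m`, positive at `h a`, `h b`, serves every `T n`, `n ≠ m`
      have key : ∀ m, 0 < φ m (w (h a)) → 0 < φ m (w (h b)) → ∀ n, n ≠ m →
          ∃ ψ : V →ₗ[ℝ] ℝ, ψ (w (T n)) = 0 ∧
            (∀ q ∈ [h a, h b, T k, T l, T i, T j], 0 ≤ ψ (w q)) ∧
            ∃ x y z : Fin 9, x ∈ [h a, h b, T k, T l, T i, T j] ∧
              y ∈ [h a, h b, T k, T l, T i, T j] ∧ z ∈ [h a, h b, T k, T l, T i, T j] ∧
              x ≠ y ∧ x ≠ z ∧ y ≠ z ∧ 0 < ψ (w x) ∧ 0 < ψ (w y) ∧ 0 < ψ (w z) := by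
        intro m hma hmb n hnm
        have hTm : ∀ q, 0 ≤ φ m (w (T q)) := by
          intro q
          by_cases hq : q = m
          · rw [hq]; exact (hφT m).le
          · exact (hφ0 m q hq).ge
        refine ⟨φ m, hφ0 m n hnm, ?_, h a, h b, T m, by simp, by simp, ?_, hinj.ne hab,
          (hTh m a).symm, (hTh m b).symm, hma, hmb, hφT m⟩
        · intro q hq
          simp only [List.mem_cons, List.not_mem_nil, or_false] at hq
          rcases hq with rfl | rfl | rfl | rfl | rfl | rfl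
          · exact hma.le
          · exact hmb.le
          all_goals exact hTm _
        · by_cases hml : m = l
          · subst hml; simp
          · rcases hall m hml with rfl | rfl | rfl <;> simp
      intro q hq
      simp only [List.mem_cons, List.not_mem_nil, or_false] at hq
      rcases hq with rfl | rfl | rfl | rfl | rfl | rfl
      · exact Or.inl (hext a)
      · exact Or.inl (hext b)
      · exact Or.inr (key l hal hbl k hkl)
      · exact Or.inr (key k hak hbk l hkl.symm)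
      · exact Or.inr (key k hak hbk i hik)
      · exact Or.inr (key k hak hbk j hjk)
  · -- {s, T minus l, h a, h b}
    obtain ⟨i, j, hij, hik, hil, hjk, hjl, hall⟩ := hcomp2 k l hkl
    refine hno (cvx_list hg [h a, h b, s, T k, T i, T j] ?_ rfl ?_)
    · simp only [List.nodup_cons, List.mem_cons, List.not_mem_nil, or_false, not_or,
        not_false_eq_true, List.nodup_nil, and_true]
      exact ⟨⟨hinj.ne hab, (hsh a).symm, (hTh k a).symm, (hTh i a).symm, (hTh j a).symm⟩,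
        ⟨(hsh b).symm, (hTh k b).symm, (hTh i b).symm, (hTh j b).symm⟩,
        ⟨hs k, hs i, hs j⟩, ⟨hT.ne hik.symm, hT.ne hjk.symm⟩, hT.ne hij⟩
    · -- the plane `φ m - φ l`
      have key : ∀ m, m ≠ l → φ l (w (h a)) < φ m (w (h a)) → φ l (w (h b)) < φ m (w (h b)) →
          ∀ n, (n = s ∨ ∃ r, r ≠ m ∧ r ≠ l ∧ n = T r) →
          ∃ ψ : V →ₗ[ℝ] ℝ, ψ (w n) = 0 ∧
            (∀ q ∈ [h a, h b, s, T k, T i, T j], 0 ≤ ψ (w q)) ∧
            ∃ x y z : Fin 9, x ∈ [h a, h b, s, T k, T i, T j] ∧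
              y ∈ [h a, h b, s, T k, T i, T j] ∧ z ∈ [h a, h b, s, T k, T i, T j] ∧
              x ≠ y ∧ x ≠ z ∧ y ≠ z ∧ 0 < ψ (w x) ∧ 0 < ψ (w y) ∧ 0 < ψ (w z) := by
        intro m hml hma hmb n hn
        obtain ⟨h1, h2, h3⟩ := hdiff m l hml
        have hTm : ∀ q, q ≠ l → 0 ≤ (φ m - φ l) (w (T q)) := by
          intro q hql
          by_cases hq : q = m
          · rw [hq]; exact h2.le
          · exact (h3 q hq hql).ge
        have ha' : 0 < (φ m - φ l) (w (h a)) := by rw [LinearMap.sub_apply]; linarith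
        have hb' : 0 < (φ m - φ l) (w (h b)) := by rw [LinearMap.sub_apply]; linarith
        refine ⟨φ m - φ l, ?_, ?_, h a, h b, T m, by simp, by simp, ?_, hinj.ne hab,
          (hTh m a).symm, (hTh m b).symm, ha', hb', h2⟩
        · rcases hn with rfl | ⟨r, hrm, hrl, rfl⟩
          · exact h1
          · exact h3 r hrm hrl
        · intro q hq
          simp only [List.mem_cons, List.not_mem_nil, or_false] at hq
          rcases hq with rfl | rfl | rfl | rfl | rfl | rfl
          · exact ha'.le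
          · exact hb'.le
          · exact h1.ge
          · exact hTm k hkl
          · exact hTm i hil
          · exact hTm j hjl
        · rcases hall m hml with rfl | rfl | rfl <;> simp
      intro q hq
      simp only [List.mem_cons, List.not_mem_nil, or_false] at hq
      rcases hq with rfl | rfl | rfl | rfl | rfl | rfl
      · exact Or.inl (hext a)
      · exact Or.inl (hext b)
      · exact Or.inr (key k hkl hak hbk _ (Or.inl rfl))
      · right
        rcases hm with ⟨m, hmk, hma, hmb⟩ | ⟨m, hmk, hml, hma, hmb⟩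
        · have hTm : ∀ q, 0 ≤ φ m (w (T q)) := by
            intro q
            by_cases hq : q = m
            · rw [hq]; exact (hφT m).le
            · exact (hφ0 m q hq).ge
          have hs1 : 0 < φ m (w s) := by rw [hφs]; exact one_pos
          refine ⟨φ m, hφ0 m k hmk.symm, ?_, h a, h b, s, by simp, by simp, by simp,
            hinj.ne hab, (hsh a).symm, (hsh b).symm, hma, hmb, hs1⟩
          intro q hq
          simp only [List.mem_cons, List.not_mem_nil, or_false] at hq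
          rcases hq with rfl | rfl | rfl | rfl | rfl | rfl
          · exact hma.le
          · exact hmb.le
          · exact hs1.le
          all_goals exact hTm _
        · exact key m hml hma hmb _ (Or.inr ⟨k, hmk.symm, hkl, rfl⟩)
      · exact Or.inr (key k hkl hak hbk _ (Or.inr ⟨i, hik, hil, rfl⟩))
      · exact Or.inr (key k hkl hak hbk _ (Or.inr ⟨j, hjk, hjl, rfl⟩))
-- END caseii

end Pool.Agent.ES9
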