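import Pool.Agent.ES9.CaseI

set_option autoImplicit false

namespace Pool.Agent.ES9

open Finset



-- BEGIN nine
/-- **Bisztriczky - Soltan** for cones: nine vectors of `ℝ⁴` in an open half space, every four of
them independent: six of them are in convex position. -/
theorem nine (w : Fin 9 → V) (hl : Light w) (hg : GP w) :
    ∃ A : Finset (Fin 9), A.card = 6 ∧ Cvx w A := by
  obtain ⟨H, hH, hext, hgen⟩ := exists_hull w hl hg
  by_cases h5 : 5 ≤ H.card
  · exact case_big hg h5 hext
  have h4 : H.card = 4 := by omega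
  have hI : (Hᶜ).card = 5 := by rw [Finset.card_compl, h4]; rfl
  let h : Fin 4 → Fin 9 := fun a => (H.orderIsoOfFin h4 a : Fin 9)
  have hinj : Function.Injective h := by
    intro a b hab
    exact (H.orderIsoOfFin h4).injective (Subtype.ext hab)
  have hmem : ∀ a, h a ∈ H := fun a => (H.orderIsoOfFin h4 a).2
  have hext' : ∀ a, ¬ InCone w (univ.erase (h a)) (w (h a)) := fun a => hext _ (hmem a)
  have hne : ∀ i ∈ Hᶜ, ∀ a, i ≠ h a := by
    intro i hi a hia
    exact (Finset.mem_compl.mp hi) (hia ▸ hmem a)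
  rcases types hl hg _ hI with ⟨s, x, y, z, t, hd, hm, a, b, c, d, ha, hb, hc, hd', hr⟩ |
    ⟨p, q, u, v, t, hd, hm, a, b, c, d, e, ha, hb, hc, hd', he, hr⟩
  · have hx : x ∈ Hᶜ := hm x (by simp)
    have hy : y ∈ Hᶜ := hm y (by simp)
    have hz : z ∈ Hᶜ := hm z (by simp)
    have ht : t ∈ Hᶜ := hm t (by simp)
    have hs : s ∈ Hᶜ := hm s (by simp)
    simp only [List.nodup_cons, List.mem_cons, List.not_mem_nil, or_false, not_or,
      not_false_eq_true, List.nodup_nil, and_true] at hd
    obtain ⟨⟨h1, h2, h3, h4'⟩, ⟨h5', h6, h7⟩, ⟨h8, h9⟩, h10⟩ := hd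
    refine case_ii hl hg h hinj hext' (s := s) (T := ![x, y, z, t]) ?_ ?_ (hne s hs) ?_
      (α := ![a, b, c, d]) ?_ ?_
    · intro k l hkl
      fin_cases k <;> fin_cases l <;> simp_all
    · intro k
      fin_cases k <;> simp_all
    · intro k
      fin_cases k
      · exact hne x hx
      · exact hne y hy
      · exact hne z hz
      · exact hne t ht
    · intro k
      fin_cases k <;> simp_all
    · rw [hr, Fin.sum_univ_four]
      rfl
  · exact case_i hl hg h hinj hext' hd (fun i hi a => hne i (hm i hi) a) ha hb hc hd' he hr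
-- END nine

end Pool.Agent.ES9
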