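import Mathlib

/-!
# Nine points of space contain six in convex position (Bisztriczky - Soltan): definitions

Everything is said for vectors of `ℝ⁴` in an open half space (`Light`), in general position
(`GP`: every four are independent), and cones in the place of convex hulls.
-/

set_option autoImplicit false

namespace Pool.Agent.ES9

open Finset

abbrev V : Type := Fin 4 → ℝ

/-- `v` lies in the cone generated by the `w j`, `j ∈ A` -/
def InCone {ι : Type} [Fintype ι] (w : ι → V) (A : Finset ι) (v : V) : Prop :=
  ∃ c : ι → ℝ, (∀ j, 0 ≤ c j) ∧ (∀ j, j ∉ A → c j = 0) ∧ v = ∑ j, c j • w j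

/-- all members lie in one open half space -/
def Light {ι : Type} (w : ι → V) : Prop := ∃ y : V →ₗ[ℝ] ℝ, ∀ i, 0 < y (w i)

/-- general position: a linear relation with at most four terms is trivial -/
def GP {ι : Type} [Fintype ι] (w : ι → V) : Prop :=
  ∀ c : ι → ℝ, ∑ j, c j • w j = 0 → (∃ A : Finset ι, A.card ≤ 4 ∧ ∀ j, j ∉ A → c j = 0) → c = 0

/-- the members `w i`, `i ∈ A`, are in convex position: none is in the cone of the others -/
def Cvx {ι : Type} [Fintype ι] [DecidableEq ι] (w : ι → V) (A : Finset ι) : Prop :=
  ∀ i ∈ A, ¬ InCone w (A.erase i) (w i)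

end Pool.Agent.ES9
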