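import Pool.Agent.ES9.Bridge
import Pool.Agent.C1S.Rel
import Pool.Agent.C1S.SixDet

/-!
# A strict clique of vectors of `ℝ⁴` has at most eight members
-/

set_option autoImplicit false

namespace Pool.Agent.ES9

open Finset

theorem eight_gp {w : Fin 9 → V} (hg : GP w) {s : Fin 6 → Fin 9} (hs : Function.Injective s)
    (c : Fin 6 → ℝ) (hc : ∑ i, c i • w (s i) = 0) (i j : Fin 6) (hij : i ≠ j) (hi : c i = 0)
    (hj : c j = 0) : c = 0 := by
  classical
  obtain ⟨c', h1, h2, h3⟩ := C1S.rel_extend (W := w) s hs c (by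
    intro a
    have := congrFun hc a
    simpa [Finset.sum_apply] using this)
  have h4 : c' = 0 := by
    refine hg c' ?_ ⟨((univ.erase i).erase j).image s, ?_, ?_⟩
    · funext a
      simpa [Finset.sum_apply] using h1 a
    · refine Finset.card_image_le.trans ?_
      rw [Finset.card_erase_of_mem (by simp [hij.symm]), Finset.card_erase_of_mem (by simp)]
      simp
    · intro k hk
      by_cases hr : ∃ r, s r = k
      · obtain ⟨r, rfl⟩ := hr
        rw [h2 r]
        by_cases hri : r = i
        · rw [hri, hi]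
        by_cases hrj : r = j
        · rw [hrj, hj]
        · exact absurd (Finset.mem_image_of_mem s (by simp [hri, hrj])) hk
      · push Not at hr
        exact h3 k hr
  funext r
  rw [← h2 r, h4]
  rfl

/-- **Strict cliques in `ℝ⁴` have at most eight members.** -/
theorem strict_le_eight {n : ℕ} (W : Fin n → Fin 4 → ℝ) (hW : C1S.StrictClique W) : n ≤ 8 := by
  by_contra hn
  have hn9 : 9 ≤ n := by omega
  let W9 : Fin 9 → Fin (3 + 1) → ℝ := fun i => W (Fin.castLE hn9 i)
  have hinj : Function.Injective (Fin.castLE hn9) := Fin.castLE_injective hn9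
  have h9 : C1S.StrictClique W9 := by
    refine ⟨fun i => hW.1 _, fun i j hij => ?_⟩
    obtain ⟨f, h1, h2, h3⟩ := hW.2 _ _ (hinj.ne hij)
    exact ⟨f, h1, h2, fun k hki hkj => h3 _ (hinj.ne hki) (hinj.ne hkj)⟩
  obtain ⟨w, hlast, hdet, -, hst⟩ := C1S.exists_pert W9 h9.1
  have hs := hst h9
  have hg : GP w := gp_of_minors w (fun s hs => hdet s hs)
  have hl : Light w := ⟨LinearMap.proj (Fin.last 3), fun i => hlast i⟩
  obtain ⟨A, hA, hc⟩ := nine w hl hg
  obtain ⟨s, hsm, hrel⟩ := bridge hl hg hA hc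
  have hsi : Function.Injective s := hsm.injective
  have hgp := eight_gp hg hsi
  have hch : ∀ i j : Fin 6, ∃ f : Fin 4 → ℝ, i ≠ j → (∑ t, f t * w (s i) t = 1 ∧
      ∑ t, f t * w (s j) t = -1 ∧ ∀ k, k ≠ i → k ≠ j → |∑ t, f t * w (s k) t| < 1) := by
    intro i j
    by_cases hij : i = j
    · exact ⟨0, fun h => absurd hij h⟩
    · obtain ⟨f, h1, h2, h3⟩ := hs.2 (s i) (s j) (hsi.ne hij)
      exact ⟨f, fun _ => ⟨h1, h2, fun k hk1 hk2 => h3 (s k) (hsi.ne hk1) (hsi.ne hk2)⟩⟩
  choose f hf using hch
  refine C1S.six_space (fun i => w (s i)) hgp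
    (C1S.tri_of_functionals (fun i => w (s i)) f (fun i j h => (hf i j h).1)
      (fun i j h => (hf i j h).2.1) (fun i j k h h1 h2 => (hf i j h).2.2 k h1 h2) hgp) ?_
  intro c hc0 hcne l hl0
  obtain ⟨⟨i, j, hij, hi, hj⟩, i', j', hij', hi', hj'⟩ := hrel c hcne hc0
  have h2 : 2 ≤ (univ.filter (fun j => 0 < c j)).card := by
    have : ({i, j} : Finset (Fin 6)) ⊆ univ.filter (fun j => 0 < c j) := by
      intro k hk
      simp only [Finset.mem_insert, Finset.mem_singleton] at hk
      rcases hk with rfl | rfl <;> simp [*]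
    have h := Finset.card_le_card this
    rwa [Finset.card_pair hij] at h
  have h3 : (univ.filter (fun j => 0 < c j)).card ≤ 3 := by
    have hsub : (univ.filter (fun j => 0 < c j)) ⊆ (({l, i', j'} : Finset (Fin 6))ᶜ) := by
      intro k hk
      simp only [Finset.mem_filter, Finset.mem_univ, true_and] at hk
      simp only [Finset.mem_compl, Finset.mem_insert, Finset.mem_singleton, not_or]
      refine ⟨?_, ?_, ?_⟩
      · rintro rfl; rw [hl0] at hk; exact lt_irrefl _ hk
      · rintro rfl; exact lt_asymm hk hi'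
      · rintro rfl; exact lt_asymm hk hj'
    have hcard : ({l, i', j'} : Finset (Fin 6)).card = 3 := by
      have h1 : l ≠ i' := by rintro rfl; rw [hl0] at hi'; exact lt_irrefl _ hi'
      have h2 : l ≠ j' := by rintro rfl; rw [hl0] at hj'; exact lt_irrefl _ hj'
      rw [Finset.card_insert_of_notMem (by simp [h1, h2]), Finset.card_pair hij']
    have h := Finset.card_le_card hsub
    rw [Finset.card_compl, hcard] at h
    simpa using h
  omega

end Pool.Agent.ES9
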