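import Pool.Agent.ES9.Basic

set_option autoImplicit false

namespace Pool.Agent.ES9

open Finset

-- BEGIN hull
/-- substitution -/
private theorem hull_trans {w : Fin 9 → V} {A B : Finset (Fin 9)} {v : V}
    (h : InCone w A v) (hB : ∀ j ∈ A, InCone w B (w j)) : InCone w B v := by
  obtain ⟨c, h1, h2, h3⟩ := h
  choose! d hd1 hd2 hd3 using hB
  refine ⟨fun k => ∑ j ∈ A, c j * d j k, fun k => ?_, fun k hk => ?_, ?_⟩
  · exact Finset.sum_nonneg fun j hj => mul_nonneg (h1 j) (hd1 j hj k)
  · exact Finset.sum_eq_zero fun j hj => by rw [hd2 j hj k hk, mul_zero]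
  · have e1 : v = ∑ j ∈ A, c j • w j := by
      rw [h3]
      symm
      apply Finset.sum_subset (Finset.subset_univ A)
      intro j _ hj
      rw [h2 j hj, zero_smul]
    rw [e1]
    have e2 : ∀ j ∈ A, c j • w j = ∑ k, (c j * d j k) • w k := by
      intro j hj
      conv_lhs => rw [hd3 j hj]
      rw [Finset.smul_sum]
      exact Finset.sum_congr rfl fun k _ => by rw [smul_smul]
    rw [Finset.sum_congr rfl e2, Finset.sum_comm]
    exact Finset.sum_congr rfl fun k _ => by rw [Finset.sum_smul]

private theorem hull_ext {w : Fin 9 → V} (hl : Light w) (hg : GP w) {H : Finset (Fin 9)}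
    (hH : ∀ j, InCone w H (w j)) {i : Fin 9} (hi : InCone w (univ.erase i) (w i)) :
    InCone w (H.erase i) (w i) := by
  obtain ⟨y, hy⟩ := hl
  obtain ⟨c, c1, c2, c3⟩ := hi
  have hH' := hH
  choose d hd1 hd2 hd3 using hH
  set e : Fin 9 → ℝ := fun k => ∑ j, c j * d j k with he
  have e0 : ∀ k, 0 ≤ e k := fun k => Finset.sum_nonneg fun j _ => mul_nonneg (c1 j) (hd1 j k)
  have eH : ∀ k, k ∉ H → e k = 0 := fun k hk =>
    Finset.sum_eq_zero fun j _ => by rw [hd2 j k hk, mul_zero]
  have es : w i = ∑ k, e k • w k := by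
    conv_lhs => rw [c3]
    have e2 : ∀ j ∈ (univ : Finset (Fin 9)), c j • w j = ∑ k, (c j * d j k) • w k := by
      intro j _
      conv_lhs => rw [hd3 j]
      rw [Finset.smul_sum]
      exact Finset.sum_congr rfl fun k _ => by rw [smul_smul]
    rw [Finset.sum_congr rfl e2, Finset.sum_comm]
    exact Finset.sum_congr rfl fun k _ => by rw [he, Finset.sum_smul]
  have es' : w i = e i • w i + ∑ k ∈ univ.erase i, e k • w k := by
    rw [Finset.add_sum_erase _ (fun k => e k • w k) (Finset.mem_univ i)]
    exact es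
  by_cases h1 : e i < 1
  · refine ⟨fun k => if k = i then 0 else (1 - e i)⁻¹ * e k, fun k => ?_, fun k hk => ?_, ?_⟩
    · by_cases hk : k = i
      · simp [hk]
      · simp only [if_neg hk]
        exact mul_nonneg (inv_nonneg.mpr (by linarith)) (e0 k)
    · by_cases hki : k = i
      · simp [hki]
      · simp only [if_neg hki]
        rw [eH k (fun hkH => hk (Finset.mem_erase.mpr ⟨hki, hkH⟩)), mul_zero]
    · rw [← Finset.add_sum_erase _ _ (Finset.mem_univ i)]
      simp only [if_true, zero_smul, zero_add]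
      have : ∀ k ∈ univ.erase i, (if k = i then (0 : ℝ) else (1 - e i)⁻¹ * e k) • w k
          = (1 - e i)⁻¹ • (e k • w k) := by
        intro k hk
        rw [if_neg (Finset.ne_of_mem_erase hk), smul_smul]
      rw [Finset.sum_congr rfl this, ← Finset.smul_sum]
      have h2 : ∑ k ∈ univ.erase i, e k • w k = (1 - e i) • w i := by
        rw [sub_smul, one_smul]
        exact (sub_eq_iff_eq_add'.mpr es').symm
      rw [h2, smul_smul, inv_mul_cancel₀ (by linarith), one_smul]
  · exfalso
    push Not at h1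
    have hy1 : y (w i) = e i * y (w i) + ∑ k ∈ univ.erase i, e k * y (w k) := by
      conv_lhs => rw [es']
      rw [map_add, map_smul, map_sum]
      simp only [map_smul, smul_eq_mul]
    have hs0 : 0 ≤ ∑ k ∈ univ.erase i, e k * y (w k) :=
      Finset.sum_nonneg fun k _ => mul_nonneg (e0 k) (hy k).le
    have hs1 : ∑ k ∈ univ.erase i, e k * y (w k) = 0 := by
      have := hy i
      nlinarith
    have hz : ∀ k, k ≠ i → e k = 0 := by
      intro k hk
      have := (Finset.sum_eq_zero_iff_of_nonneg
        (fun k _ => mul_nonneg (e0 k) (hy k).le)).mp hs1 k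
          (Finset.mem_erase.mpr ⟨hk, Finset.mem_univ k⟩)
      rcases mul_eq_zero.mp this with h | h
      · exact h
      · exact absurd h (hy k).ne'
    -- some `c j` is positive
    have hj : ∃ j, c j * d j i ≠ 0 := by
      by_contra hcon
      push Not at hcon
      have : e i = 0 := Finset.sum_eq_zero fun j _ => hcon j
      linarith
    obtain ⟨j, hj⟩ := hj
    have hcj : c j ≠ 0 := left_ne_zero_of_mul hj
    have hji : j ≠ i := by
      rintro rfl
      exact hcj (c2 j (Finset.notMem_erase j _))
    have hdz : ∀ k, k ≠ i → d j k = 0 := by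
      intro k hk
      have h2 := (Finset.sum_eq_zero_iff_of_nonneg
        (fun l _ => mul_nonneg (c1 l) (hd1 l k))).mp (hz k hk) j (Finset.mem_univ j)
      exact (mul_eq_zero.mp h2).resolve_left hcj
    have hw : w j = d j i • w i := by
      conv_lhs => rw [hd3 j]
      rw [Finset.sum_eq_single i]
      · intro k _ hk
        rw [hdz k hk, zero_smul]
      · intro h
        exact absurd (Finset.mem_univ i) h
    have hrel := hg (fun k => (if k = j then 1 else 0) - (if k = i then d j i else 0)) (by
      simp only [sub_smul, ite_smul, one_smul, zero_smul, Finset.sum_sub_distrib,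
        Finset.sum_ite_eq', Finset.mem_univ, if_true]
      rw [sub_eq_zero]
      exact hw) ⟨{j, i}, (Finset.card_le_two).trans (by norm_num), fun k hk => by
        simp only [Finset.mem_insert, Finset.mem_singleton, not_or] at hk
        simp [hk.1, hk.2]⟩
    have := congrFun hrel j
    simp [hji] at this

/-- the extreme members: a minimal set `H` with all members in the cone of `H` -/
theorem exists_hull (w : Fin 9 → V) (hl : Light w) (hg : GP w) :
    ∃ H : Finset (Fin 9), 4 ≤ H.card ∧ (∀ i ∈ H, ¬ InCone w (univ.erase i) (w i)) ∧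
      ∀ j, InCone w H (w j) := by
  classical
  obtain ⟨H, hHm, hmin⟩ := Finset.exists_min_image
    ((univ : Finset (Finset (Fin 9))).filter fun H => ∀ j, InCone w H (w j)) Finset.card
    ⟨univ, by
      simp only [Finset.mem_filter, Finset.mem_univ, true_and]
      intro j
      refine ⟨fun k => if k = j then 1 else 0, fun k => ?_, fun k hk => ?_, ?_⟩
      · show (0 : ℝ) ≤ if k = j then 1 else 0
        split_ifs <;> norm_num
      · exact absurd (Finset.mem_univ k) hk
      · simp⟩
  simp only [Finset.mem_filter, Finset.mem_univ, true_and] at hHm hmin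
  refine ⟨H, ?_, ?_, hHm⟩
  · by_contra hlt
    push Not at hlt
    obtain ⟨j, hj⟩ : ∃ j, j ∉ H := by
      by_contra hcon
      push Not at hcon
      have : H = univ := Finset.eq_univ_iff_forall.mpr hcon
      rw [this] at hlt
      simp at hlt
    obtain ⟨c, c1, c2, c3⟩ := hHm j
    have hrel := hg (fun k => c k - (if k = j then 1 else 0)) (by
      simp only [sub_smul, ite_smul, one_smul, zero_smul, Finset.sum_sub_distrib,
        Finset.sum_ite_eq', Finset.mem_univ, if_true]
      rw [sub_eq_zero]
      exact c3.symm) ⟨insert j H, (Finset.card_insert_le _ _).trans (by omega), fun k hk => by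
        simp only [Finset.mem_insert, not_or] at hk
        simp [hk.1, c2 k hk.2]⟩
    have := congrFun hrel j
    simp [c2 j hj] at this
  · intro i hi hcon
    have h1 := hull_ext hl hg hHm hcon
    have h2 : ∀ j, InCone w (H.erase i) (w j) := by
      intro j
      refine hull_trans (hHm j) fun k hk => ?_
      by_cases hki : k = i
      · rw [hki]; exact h1
      · refine ⟨fun l => if l = k then 1 else 0, fun l => ?_, fun l hl' => ?_, ?_⟩
        · show (0 : ℝ) ≤ if l = k then 1 else 0
          split_ifs <;> norm_num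
        · show (if l = k then (1 : ℝ) else 0) = 0
          rw [if_neg]
          rintro rfl
          exact hl' (Finset.mem_erase.mpr ⟨hki, hk⟩)
        · simp
    have h3 := hmin (H.erase i) h2
    have h4 := Finset.card_erase_lt_of_mem hi
    omega
-- END hull

-- BEGIN six
/-- PLANE LEMMA as a set of six -/
theorem plane_six {w : Fin 9 → V} (hg : GP w) {H : Finset (Fin 9)}
    (hext : ∀ i ∈ H, ¬ InCone w (univ.erase i) (w i)) {x y z u v t : Fin 9}
    (hd : [x, y, z, u, v, t].Nodup) (hu : u ∈ H) (hv : v ∈ H) (ht : t ∈ H)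
    (φ : V →ₗ[ℝ] ℝ) (hx : φ (w x) = 0) (hy : φ (w y) = 0) (hz : φ (w z) = 0)
    (hu' : 0 < φ (w u)) (hv' : 0 < φ (w v)) (ht' : 0 < φ (w t)) :
    ∃ A : Finset (Fin 9), A.card = 6 ∧ Cvx w A := by
  refine ⟨[x, y, z, u, v, t].toFinset, ?_, ?_⟩
  · rw [List.toFinset_card_of_nodup hd]; rfl
  · have hmem : ∀ j, j ∈ [x, y, z, u, v, t].toFinset ↔ j = x ∨ j = y ∨ j = z ∨ j = u ∨ j = v ∨ j = t := by
      intro j; simp
    have hE : ∀ i ∈ H, ¬ InCone w ([x, y, z, u, v, t].toFinset.erase i) (w i) := fun i hi h =>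
      hext i hi (h.mono (Finset.erase_subset_erase i (Finset.subset_univ _)))
    have hF : ∀ i, φ (w i) = 0 → ¬ InCone w ([x, y, z, u, v, t].toFinset.erase i) (w i) := by
      intro i hi
      refine face hg (Finset.notMem_erase i _) φ hi ?_ {x, y, z} Finset.card_le_three ?_
      · intro j hj
        rcases (hmem j).1 (Finset.mem_of_mem_erase hj) with rfl | rfl | rfl | rfl | rfl | rfl
        · exact hx.ge
        · exact hy.ge
        · exact hz.ge
        · exact hu'.le
        · exact hv'.le
        · exact ht'.le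
      · intro j hj hjZ
        simp only [Finset.mem_insert, Finset.mem_singleton, not_or] at hjZ
        rcases (hmem j).1 (Finset.mem_of_mem_erase hj) with h | h | h | rfl | rfl | rfl
        · exact absurd h hjZ.1
        · exact absurd h hjZ.2.1
        · exact absurd h hjZ.2.2
        · exact hu'.ne'
        · exact hv'.ne'
        · exact ht'.ne'
    intro i hi
    rcases (hmem i).1 hi with h | h | h | h | h | h
    · exact hF i (h ▸ hx)
    · exact hF i (h ▸ hy)
    · exact hF i (h ▸ hz)
    · exact hE i (h ▸ hu)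
    · exact hE i (h ▸ hv)
    · exact hE i (h ▸ ht)
-- END six

-- BEGIN big
theorem big_three {w : Fin 9 → V} (hg : GP w) {H : Finset (Fin 9)}
    (hext : ∀ i ∈ H, ¬ InCone w (univ.erase i) (w i)) {x y z : Fin 9}
    (hx : x ∉ H) (hy : y ∉ H) (hz : z ∉ H) (hxy : x ≠ y) (hxz : x ≠ z) (hyz : y ≠ z)
    (φ : V →ₗ[ℝ] ℝ) (h1 : φ (w x) = 0) (h2 : φ (w y) = 0) (h3 : φ (w z) = 0)
    (hc : 2 < (H.filter (fun i => 0 < φ (w i))).card) :
    ∃ A : Finset (Fin 9), A.card = 6 ∧ Cvx w A := by
  obtain ⟨u, v, t, hu, hv, ht, huv, hut, hvt⟩ := Finset.two_lt_card_iff.1 hc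
  rw [Finset.mem_filter] at hu hv ht
  have hne : ∀ a b : Fin 9, a ∉ H → b ∈ H → a ≠ b := fun a b ha hb h => ha (h ▸ hb)
  refine plane_six hg hext (x := x) (y := y) (z := z) (u := u) (v := v) (t := t) ?_ hu.1 hv.1 ht.1
    φ h1 h2 h3 hu.2 hv.2 ht.2
  simp only [List.nodup_cons, List.mem_cons, List.not_mem_nil, or_false, not_or,
      not_false_eq_true, List.nodup_nil, and_true]
  exact ⟨⟨hxy, hxz, hne x u hx hu.1, hne x v hx hv.1, hne x t hx ht.1⟩,
    ⟨hyz, hne y u hy hu.1, hne y v hy hv.1, hne y t hy ht.1⟩,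
    ⟨hne z u hz hu.1, hne z v hz hv.1, hne z t hz ht.1⟩, ⟨huv, hut⟩, hvt⟩

/-- at least five extreme members -/
theorem case_big {w : Fin 9 → V} (hg : GP w) {H : Finset (Fin 9)} (hH : 5 ≤ H.card)
    (hext : ∀ i ∈ H, ¬ InCone w (univ.erase i) (w i)) :
    ∃ A : Finset (Fin 9), A.card = 6 ∧ Cvx w A := by
  by_cases h6 : 6 ≤ H.card
  · obtain ⟨A, hA, hc⟩ := Finset.exists_subset_card_eq h6
    refine ⟨A, hc, fun i hi h => hext i (hA hi) (h.mono ?_)⟩
    exact Finset.erase_subset_erase _ (Finset.subset_univ _)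
  have h5 : H.card = 5 := by omega
  have hcc : (Hᶜ).card = 4 := by rw [Finset.card_compl, h5]; rfl
  obtain ⟨x, y, z, hx, hy, hz, hxy, hxz, hyz⟩ :=
    Finset.two_lt_card_iff.1 (show 2 < (Hᶜ).card by omega)
  rw [Finset.mem_compl] at hx hy hz
  obtain ⟨φ, h1, h2, h3, h4⟩ := exists_plane hg (x := x) (y := y) (z := z)
    (by simp [hxy, hxz, hyz])
  have hsum := Finset.card_filter_add_card_filter_not (s := H) (fun i => 0 < φ (w i))
  by_cases hp : 2 < (H.filter (fun i => 0 < φ (w i))).card
  · exact big_three hg hext hx hy hz hxy hxz hyz φ h1 h2 h3 hp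
  · have hn : 2 < (H.filter (fun i => 0 < (-φ) (w i))).card := by
      have hle : (H.filter (fun i => ¬ 0 < φ (w i))).card ≤
          (H.filter (fun i => 0 < (-φ) (w i))).card := by
        refine Finset.card_le_card fun i hi => ?_
        rw [Finset.mem_filter] at hi ⊢
        refine ⟨hi.1, ?_⟩
        have hne : φ (w i) ≠ 0 := h4 i (fun h => hx (h ▸ hi.1)) (fun h => hy (h ▸ hi.1))
          (fun h => hz (h ▸ hi.1))
        rw [LinearMap.neg_apply]
        rcases lt_or_gt_of_ne hne with h | h
        · linarith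
        · exact absurd h hi.2
      omega
    refine big_three hg hext hx hy hz hxy hxz hyz (-φ) ?_ ?_ ?_ hn
    · rw [LinearMap.neg_apply, h1, neg_zero]
    · rw [LinearMap.neg_apply, h2, neg_zero]
    · rw [LinearMap.neg_apply, h3, neg_zero]
-- END big

-- BEGIN types
theorem types_rel {w : Fin 9 → V} (I : Finset (Fin 9)) (hI : I.card = 5) :
    ∃ c : Fin 9 → ℝ, ∑ j, c j • w j = 0 ∧ (∀ j, j ∉ I → c j = 0) ∧ c ≠ 0 := by
  have hn : ¬ LinearIndependent ℝ (fun i : I => w i.1) := by
    intro h
    have h1 := h.fintype_card_le_finrank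
    rw [Fintype.card_coe, hI, Module.finrank_fin_fun] at h1
    omega
  obtain ⟨g, hg, i, hi⟩ := Fintype.not_linearIndependent_iff.1 hn
  refine ⟨fun j => if h : j ∈ I then g ⟨j, h⟩ else 0, ?_, fun j hj => dif_neg hj, ?_⟩
  · rw [← Finset.sum_subset (Finset.subset_univ I)
      (fun j _ hj => by simp only [dif_neg hj, zero_smul]),
      ← Finset.sum_attach, ← hg, Finset.univ_eq_attach]
    apply Finset.sum_congr rfl
    intro x _
    simp only [dif_pos x.2]
  · intro h0
    have h1 := congrFun h0 i.1
    simp only [Pi.zero_apply] at h1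
    rw [dif_pos i.2] at h1
    exact hi h1

theorem types_sgn {w : Fin 9 → V} (hl : Light w) (hg : GP w) (I : Finset (Fin 9)) (hI : I.card = 5) :
    ∃ (c : Fin 9 → ℝ) (P N : Finset (Fin 9)), Disjoint P N ∧ P ∪ N = I ∧ (∀ j ∈ P, 0 < c j) ∧
      (∀ j ∈ N, c j < 0) ∧ ∑ j ∈ P, c j • w j + ∑ j ∈ N, c j • w j = 0 ∧ 1 ≤ P.card ∧
      P.card ≤ 2 := by
  obtain ⟨c, hc, hoff, hne⟩ := types_rel (w := w) I hI
  have hnz : ∀ j ∈ I, c j ≠ 0 := by
    intro j hj h0
    apply hne
    apply hg c hc
    refine ⟨I.erase j, by rw [Finset.card_erase_of_mem hj, hI], fun k hk => ?_⟩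
    by_cases hkj : k = j
    · rw [hkj, h0]
    · exact hoff k (fun h => hk (Finset.mem_erase.2 ⟨hkj, h⟩))
  have hsumI : ∀ e : Fin 9 → ℝ, (∀ j, j ∉ I → e j = 0) → ∑ j, e j • w j = ∑ j ∈ I, e j • w j := by
    intro e he
    exact (Finset.sum_subset (Finset.subset_univ I) (fun j _ hj => by rw [he j hj, zero_smul])).symm
  -- general statement for a relation with few positive coefficients
  have key : ∀ e : Fin 9 → ℝ, (∀ j ∈ I, e j ≠ 0) → ∑ j ∈ I, e j • w j = 0 →
      (I.filter (fun j => 0 < e j)).card ≤ 2 → ∃ (c : Fin 9 → ℝ) (P N : Finset (Fin 9)),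
        Disjoint P N ∧ P ∪ N = I ∧ (∀ j ∈ P, 0 < c j) ∧
        (∀ j ∈ N, c j < 0) ∧ ∑ j ∈ P, c j • w j + ∑ j ∈ N, c j • w j = 0 ∧ 1 ≤ P.card ∧
        P.card ≤ 2 := by
    intro e he hs hcard
    refine ⟨e, I.filter (fun j => 0 < e j), I.filter (fun j => ¬ 0 < e j),
      Finset.disjoint_filter_filter_not _ _ _, Finset.filter_union_filter_not_eq _ _,
      fun j hj => (Finset.mem_filter.1 hj).2, fun j hj => ?_, ?_, ?_, hcard⟩
    · obtain ⟨h1, h2⟩ := Finset.mem_filter.1 hj
      exact lt_of_le_of_ne (not_lt.1 h2) (he j h1)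
    · rw [Finset.sum_filter_add_sum_filter_not]
      exact hs
    · by_contra hlt
      have h0 : (I.filter (fun j => 0 < e j)).card = 0 := by omega
      have hemp := Finset.card_eq_zero.1 h0
      obtain ⟨y, hy⟩ := hl
      have h1 := congrArg y hs
      rw [map_sum, map_zero] at h1
      have hneg : ∀ j ∈ I, y (e j • w j) < 0 := by
        intro j hj
        have h2 : ¬ 0 < e j := fun h => by
          have : j ∈ I.filter (fun j => 0 < e j) := Finset.mem_filter.2 ⟨hj, h⟩
          rw [hemp] at this
          exact absurd this (Finset.notMem_empty j)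
        have h3 : e j < 0 := lt_of_le_of_ne (not_lt.1 h2) (he j hj)
        rw [map_smul, smul_eq_mul]
        exact mul_neg_of_neg_of_pos h3 (hy j)
      have hIne : I.Nonempty := by
        rw [← Finset.card_pos]
        omega
      have := Finset.sum_neg hneg hIne
      linarith
  by_cases h2 : (I.filter (fun j => 0 < c j)).card ≤ 2
  · exact key c hnz (by rw [← hsumI c hoff]; exact hc) h2
  · apply key (fun j => - c j) (fun j hj => neg_ne_zero.2 (hnz j hj))
    · have h3 := hsumI c hoff
      rw [hc] at h3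
      have h4 : ∑ j ∈ I, (fun j => - c j) j • w j = - ∑ j ∈ I, c j • w j := by
        rw [← Finset.sum_neg_distrib]
        exact Finset.sum_congr rfl fun j _ => neg_smul _ _
      rw [h4, ← h3, neg_zero]
    · have h3 : (I.filter (fun j => 0 < - c j)) ⊆ I.filter (fun j => ¬ 0 < c j) := by
        intro j hj
        obtain ⟨h4, h5⟩ := Finset.mem_filter.1 hj
        exact Finset.mem_filter.2 ⟨h4, by linarith⟩
      have h4 := Finset.card_le_card h3
      have h5 := Finset.card_filter_add_card_filter_not (s := I) (fun j => 0 < c j)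
      rw [hI] at h5
      change (I.filter (fun j => 0 < - c j)).card ≤ 2
      omega

/-- the relation of five members: one inside four others, or two against three -/
theorem types {w : Fin 9 → V} (hl : Light w) (hg : GP w) (I : Finset (Fin 9)) (hI : I.card = 5) :
    (∃ s x y z t : Fin 9, [s, x, y, z, t].Nodup ∧ (∀ i ∈ [s, x, y, z, t], i ∈ I) ∧
      ∃ a b c d : ℝ, 0 < a ∧ 0 < b ∧ 0 < c ∧ 0 < d ∧
        w s = a • w x + b • w y + c • w z + d • w t) ∨
    (∃ p q u v t : Fin 9, [p, q, u, v, t].Nodup ∧ (∀ i ∈ [p, q, u, v, t], i ∈ I) ∧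
      ∃ a b c d e : ℝ, 0 < a ∧ 0 < b ∧ 0 < c ∧ 0 < d ∧ 0 < e ∧
        a • w p + b • w q = c • w u + d • w v + e • w t) := by
  obtain ⟨c, P, N, hdis, hun, hP, hN, hs, h1, h2⟩ := types_sgn hl hg I hI
  have hcard : P.card + N.card = 5 := by
    rw [← Finset.card_union_of_disjoint hdis, hun, hI]
  have hPI : P ⊆ I := hun ▸ Finset.subset_union_left
  have hNI : N ⊆ I := hun ▸ Finset.subset_union_right
  have hPN : ∀ i ∈ P, ∀ j ∈ N, i ≠ j := fun i hi j hj hij =>
    Finset.disjoint_left.1 hdis hi (hij ▸ hj)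
  rcases (by omega : P.card = 1 ∨ P.card = 2) with hc1 | hc2
  · left
    obtain ⟨s, rfl⟩ := Finset.card_eq_one.1 hc1
    have hN4 : N.card = 4 := by omega
    obtain ⟨x, N', hx, hN', hN3⟩ := Finset.card_eq_succ.1 hN4
    obtain ⟨y, z, t, hyz, hyt, hzt, rfl⟩ := Finset.card_eq_three.1 hN3
    subst hN'
    have hs' := hPN s (Finset.mem_singleton_self s)
    simp only [Finset.mem_insert, Finset.mem_singleton, not_or] at hx
    have e1 := hs' x (by simp)
    have e2 := hs' y (by simp)
    have e3 := hs' z (by simp)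
    have e4 := hs' t (by simp)
    have ps := hP s (by simp)
    have nx := hN x (by simp)
    have ny := hN y (by simp)
    have nz := hN z (by simp)
    have nt := hN t (by simp)
    refine ⟨s, x, y, z, t, ?_, ?_, -c x / c s, -c y / c s, -c z / c s, -c t / c s,
      div_pos (by linarith) ps, div_pos (by linarith) ps, div_pos (by linarith) ps,
      div_pos (by linarith) ps, ?_⟩
    · simp [e1, e2, e3, e4, hx, hyz, hyt, hzt]
    · intro i hi
      simp only [List.mem_cons, List.not_mem_nil, or_false] at hi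
      rcases hi with rfl | rfl | rfl | rfl | rfl
      · exact hPI (by simp)
      · exact hNI (by simp)
      · exact hNI (by simp)
      · exact hNI (by simp)
      · exact hNI (by simp)
    · rw [Finset.sum_singleton, Finset.sum_insert (by simp [hx]), Finset.sum_insert (by simp [hyz, hyt]),
        Finset.sum_insert (by simp [hzt]), Finset.sum_singleton] at hs
      have h5 : c s • w s = -(c x • w x + (c y • w y + (c z • w z + c t • w t))) :=
        eq_neg_of_add_eq_zero_left hs
      have h6 : w s = (c s)⁻¹ • (c s • w s) := by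
        rw [smul_smul, inv_mul_cancel₀ ps.ne', one_smul]
      rw [h6, h5]
      ext k
      simp only [Pi.smul_apply, Pi.add_apply, Pi.neg_apply, smul_eq_mul]
      field_simp
      ring
  · right
    obtain ⟨p, q, hpq, rfl⟩ := Finset.card_eq_two.1 hc2
    have hN3 : N.card = 3 := by omega
    obtain ⟨u, v, t, huv, hut, hvt, rfl⟩ := Finset.card_eq_three.1 hN3
    have f1 := hPN p (by simp)
    have f2 := hPN q (by simp)
    have e1 := f1 u (by simp)
    have e2 := f1 v (by simp)
    have e3 := f1 t (by simp)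
    have e4 := f2 u (by simp)
    have e5 := f2 v (by simp)
    have e6 := f2 t (by simp)
    have nu := hN u (by simp)
    have nv := hN v (by simp)
    have nt := hN t (by simp)
    refine ⟨p, q, u, v, t, ?_, ?_, c p, c q, -c u, -c v, -c t, hP p (by simp), hP q (by simp),
      by linarith, by linarith, by linarith, ?_⟩
    · simp [e1, e2, e3, e4, e5, e6, hpq, huv, hut, hvt]
    · intro i hi
      simp only [List.mem_cons, List.not_mem_nil, or_false] at hi
      rcases hi with rfl | rfl | rfl | rfl | rfl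
      · exact hPI (by simp)
      · exact hPI (by simp)
      · exact hNI (by simp)
      · exact hNI (by simp)
      · exact hNI (by simp)
    · rw [Finset.sum_insert (by simp [hpq]), Finset.sum_singleton, Finset.sum_insert (by simp [huv, hut]),
        Finset.sum_insert (by simp [hvt]), Finset.sum_singleton] at hs
      rw [eq_neg_of_add_eq_zero_left hs]
      ext k
      simp only [Pi.smul_apply, Pi.add_apply, Pi.neg_apply, smul_eq_mul]
      ring
-- END types

end Pool.Agent.ES9
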