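import Pool.Agent.ES9.Eight

/-!
# Strict cliques from families whose separating planes meet the interiors of the other members
-/

set_option autoImplicit false

namespace Pool.Agent.ES9

open C1S

/-- for every two members there is a hyperplane which separates them and meets the interior of
every other member -/
def Separated {m : ℕ} (K : Set (EuclideanSpace ℝ (Fin m))) {n : ℕ} (c : Fin n → ℝ)
    (x : Fin n → EuclideanSpace ℝ (Fin m)) : Prop :=
  ∀ i j, i ≠ j → ∃ (u : EuclideanSpace ℝ (Fin m)) (r : ℝ), u ≠ 0 ∧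
    (∀ y ∈ hom K (c i) (x i), r ≤ inner ℝ u y) ∧ (∀ y ∈ hom K (c j) (x j), inner ℝ u y ≤ r) ∧
    ∀ k, k ≠ i → k ≠ j → ∃ y ∈ interior (hom K (c k) (x k)), inner ℝ u y = r

/-- small shifts of an interior point stay in the set -/
theorem interior_shift {m : ℕ} {S : Set (EuclideanSpace ℝ (Fin m))}
    {y u : EuclideanSpace ℝ (Fin m)} (hy : y ∈ interior S) (hu : u ≠ 0) :
    ∃ ε : ℝ, 0 < ε ∧ y + ε • u ∈ S ∧ y - ε • u ∈ S := by
  obtain ⟨δ, hδ, hball⟩ := Metric.isOpen_iff.1 isOpen_interior y hy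
  have hun : 0 < ‖u‖ := norm_pos_iff.2 hu
  have he : 0 < δ / (2 * ‖u‖) := by positivity
  have hn : ‖(δ / (2 * ‖u‖)) • u‖ = δ / 2 := by
    rw [norm_smul, Real.norm_eq_abs, abs_of_pos he]
    field_simp
  refine ⟨δ / (2 * ‖u‖), he, ?_, ?_⟩
  · apply interior_subset
    apply hball
    rw [Metric.mem_ball, dist_eq_norm, add_sub_cancel_left, hn]
    linarith
  · apply interior_subset
    apply hball
    rw [Metric.mem_ball, dist_eq_norm, sub_sub_cancel_left, norm_neg, hn]
    linarith

theorem sep_clique {m : ℕ} {K : Set (EuclideanSpace ℝ (Fin m))} (hKc : IsCompact K)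
    (hKi : (interior K).Nonempty) {z : EuclideanSpace ℝ (Fin m)} (hz : ∀ y ∈ K, z + z - y ∈ K)
    {n : ℕ} {c : Fin n → ℝ} {x : Fin n → EuclideanSpace ℝ (Fin m)} (hc : ∀ i, 0 < c i)
    (ht : ∀ i j, i ≠ j → (hom K (c i) (x i) ∩ hom K (c j) (x j)).Nonempty)
    (hs : Separated K c x) : StrictClique (vec c x z) := by
  have hlast : ∀ i, 0 < vec c x z i (Fin.last m) := by
    intro i
    unfold vec
    rw [Fin.snoc_last]
    exact one_div_pos.2 (hc i)
  have hne : K.Nonempty := hKi.mono interior_subset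
  refine ⟨hlast, fun i j hij => ?_⟩
  obtain ⟨u, r, hu, h1, h2, h3⟩ := hs i j hij
  have huu : 0 < inner ℝ u u := real_inner_self_pos.2 hu
  obtain ⟨p, hp, hpmax⟩ := hKc.exists_isMaxOn hne (f := fun y => inner ℝ u y) (by fun_prop)
  set w : ℝ := inner ℝ u (p - z) with hw
  have hmax : ∀ y ∈ K, inner ℝ u (y - z) ≤ w := fun y hy => by
    have : inner ℝ u y ≤ inner ℝ u p := hpmax hy
    rw [hw, inner_sub_right, inner_sub_right]
    linarith
  have hmin : ∀ y ∈ K, -w ≤ inner ℝ u (y - z) := fun y hy => by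
    have h4 := hmax _ (hz y hy)
    have e : z + z - y - z = -(y - z) := by abel
    rw [e, inner_neg_right] at h4
    linarith
  have hw0 : 0 < w := by
    obtain ⟨y0, hy0⟩ := hKi
    obtain ⟨ε, hε, h4, h5⟩ := interior_shift hy0 hu
    have h6 := hmax _ h4
    have h7 := hmin _ h5
    have e1 : y0 + ε • u - z = (y0 - z) + ε • u := by abel
    have e2 : y0 - ε • u - z = (y0 - z) - ε • u := by abel
    rw [e1, inner_add_right, real_inner_smul_right] at h6
    rw [e2, inner_sub_right, real_inner_smul_right] at h7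
    have := mul_pos hε huu
    linarith
  -- the values on the members
  have hval : ∀ k y, inner ℝ u (x k + c k • y) =
      inner ℝ u (x k + c k • z) + c k * inner ℝ u (y - z) := by
    intro k y
    rw [inner_add_right, inner_add_right, real_inner_smul_right, real_inner_smul_right,
      inner_sub_right]
    ring
  have hup : ∀ k, ∀ y ∈ hom K (c k) (x k), inner ℝ u y ≤ inner ℝ u (x k + c k • z) + c k * w := by
    rintro k _ ⟨y, hy, rfl⟩
    have h4 : inner ℝ u (x k + c k • y) =
      inner ℝ u (x k + c k • z) + c k * inner ℝ u (y - z) := hval k y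
    have h5 := mul_le_mul_of_nonneg_left (hmax y hy) (hc k).le
    show inner ℝ u (x k + c k • y) ≤ _
    rw [h4]
    linarith
  have hlo : ∀ k, ∀ y ∈ hom K (c k) (x k), inner ℝ u (x k + c k • z) - c k * w ≤ inner ℝ u y := by
    rintro k _ ⟨y, hy, rfl⟩
    have h4 : inner ℝ u (x k + c k • y) =
      inner ℝ u (x k + c k • z) + c k * inner ℝ u (y - z) := hval k y
    have h5 := mul_le_mul_of_nonneg_left (hmin y hy) (hc k).le
    show _ ≤ inner ℝ u (x k + c k • y)
    rw [h4]
    linarith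
  obtain ⟨q, hq1, hq2⟩ := ht i j hij
  have hi : inner ℝ u (x i + c i • z) - r = c i * w := by
    have h4 := hlo i q hq1
    have h5 := h2 q hq2
    have h6 : r ≤ inner ℝ u (x i + c i • (z + z - p)) := h1 _ ⟨_, hz p hp, rfl⟩
    rw [hval i (z + z - p)] at h6
    have e : z + z - p - z = -(p - z) := by abel
    rw [e, inner_neg_right, ← hw] at h6
    linarith
  have hj : inner ℝ u (x j + c j • z) - r = -(c j * w) := by
    have h4 := hup j q hq2
    have h5 := h1 q hq1
    have h6 : inner ℝ u (x j + c j • p) ≤ r := h2 _ ⟨_, hp, rfl⟩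
    rw [hval j p, ← hw] at h6
    linarith
  have hk : ∀ k, k ≠ i → k ≠ j → |inner ℝ u (x k + c k • z) - r| < c k * w := by
    intro k hki hkj
    obtain ⟨y, hy, hyr⟩ := h3 k hki hkj
    obtain ⟨ε, hε, h4, h5⟩ := interior_shift hy hu
    have h6 := hup k _ h4
    have h7 := hlo k _ h5
    rw [inner_add_right, real_inner_smul_right, hyr] at h6
    rw [inner_sub_right, real_inner_smul_right, hyr] at h7
    have := mul_pos hε huu
    rw [abs_lt]
    constructor <;> linarith
  have hdot : ∀ k, dot (Fin.snoc (fun a => (w⁻¹ • u) a) (-(w⁻¹ * r)) : Fin (m + 1) → ℝ)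
      (vec c x z k) = w⁻¹ * (inner ℝ u (x k + c k • z) - r) / c k := by
    intro k
    rw [dot_vec, real_inner_smul_left, mul_sub]
  have hwi : w⁻¹ * w = 1 := inv_mul_cancel₀ hw0.ne'
  have hwp : 0 < w⁻¹ := inv_pos.2 hw0
  refine ⟨Fin.snoc (fun a => (w⁻¹ • u) a) (-(w⁻¹ * r)), ?_, ?_, fun k hki hkj => ?_⟩
  · rw [hdot, hi, show w⁻¹ * (c i * w) = c i * (w⁻¹ * w) by ring, hwi, mul_one,
      div_self (hc i).ne']
  · rw [hdot, hj, show w⁻¹ * -(c j * w) = -(c j * (w⁻¹ * w)) by ring, hwi, mul_one, neg_div,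
      div_self (hc j).ne']
  · rw [hdot, abs_div, abs_of_pos (hc k), div_lt_one (hc k), abs_mul, abs_of_pos hwp]
    have h4 := mul_lt_mul_of_pos_left (hk k hki hkj) hwp
    rwa [show w⁻¹ * (c k * w) = c k * (w⁻¹ * w) by ring, hwi, mul_one] at h4

end Pool.Agent.ES9
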